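import Pool.Agent.W458.MF.OStm
import Pool.Agent.W521.Frob
import Pool.Agent.W928.MF.NT2

/-!
# Double transitivity, and all double sign changes
-/

set_option autoImplicit false

namespace Pool.Agent.W5h58.GT

open Polynomial NumberField Pool.Agent.W521.Frob Pool.Agent.W458.MF

/-- The stabilizer of one of the roots acts transitively on the other roots. -/
theorem fix_trans (h : ℤ[X]) (hm : h.Monic) (hdeg : 3 ≤ h.natDegree)
    (L : Type) [Field L] [NumberField L] [IsGalois ℚ L] (hsplit : (h.map (algebraMap ℤ L)).Splits)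
    (l : ℕ) (hl : l.Prime) (hpat : h.map (Int.castRingHom (ZMod l)) ∈ fixSet h.natDegree l) :
    ∃ ϑ : L, aeval ϑ h = 0 ∧ ∀ θ θ' : L, aeval θ h = 0 → aeval θ' h = 0 → θ ≠ ϑ → θ' ≠ ϑ →
      ∃ g : L ≃ₐ[ℚ] L, g ϑ = ϑ ∧ g θ = θ' := by
  classical
  have : Fact l.Prime := ⟨hl⟩
  obtain ⟨t, u, hum, hudeg, huirr, hfac⟩ := hpat
  obtain ⟨k, _, hchar, φ, σ, hσ⟩ := exists_frob L l hl
  let ψ : ZMod l →+* k := ZMod.castHom dvd_rfl k
  have hψ : Function.Injective ψ := ψ.injective
  have hu2 : 2 ≤ u.natDegree := by omega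
  -- no roots of `u` in the prime field
  have huroot : ∀ s : ZMod l, u.eval s ≠ 0 := by
    intro s hs
    have hd : (X - C s) ∣ u := dvd_iff_isRoot.mpr hs
    obtain ⟨v, hv⟩ := hd
    rcases huirr.isUnit_or_isUnit hv with h1 | h1
    · exact (not_isUnit_X_sub_C s) h1
    · have h2 : v.natDegree = 0 := natDegree_eq_zero_of_isUnit h1
      have h3 : u.natDegree = (X - C s).natDegree + v.natDegree := by
        rw [hv]
        apply natDegree_mul
        · exact X_sub_C_ne_zero s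
        · exact h1.ne_zero
      rw [natDegree_X_sub_C, h2] at h3
      omega
  -- separability
  have hsep0 : (h.map (Int.castRingHom (ZMod l))).Separable := by
    rw [hfac]
    apply Separable.mul (separable_X_sub_C)
    · exact PerfectField.separable_of_irreducible huirr
    · rw [(irreducible_X_sub_C t).coprime_iff_not_dvd]
      intro hd
      exact huroot t (dvd_iff_isRoot.mp hd)
  have hmapk : h.map (Int.castRingHom k) = (h.map (Int.castRingHom (ZMod l))).map ψ := by
    rw [Polynomial.map_map]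
    congr 1
    exact (RingHom.ext_int _ _).symm
  have hsep : (h.map (Int.castRingHom k)).Separable := by
    rw [hmapk]
    exact hsep0.map
  -- reductions of roots
  have hroot : ∀ b : 𝓞 L, aeval b h = 0 → φ b = ψ t ∨ (u.map ψ).eval (φ b) = 0 := by
    intro b hb
    have h1 : (h.map (Int.castRingHom k)).eval (φ b) = 0 := by
      have h2 : φ (eval₂ (Int.castRingHom (𝓞 L)) b h) = 0 := by
        have h3 : eval₂ (Int.castRingHom (𝓞 L)) b h = aeval b h := rfl
        rw [h3, hb, map_zero]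
      rw [Polynomial.hom_eval₂] at h2
      rw [eval_map]
      rwa [RingHom.ext_int (φ.comp (Int.castRingHom (𝓞 L))) (Int.castRingHom k)] at h2
    rw [hmapk, hfac, Polynomial.map_mul, eval_mul, Polynomial.map_sub, map_X, map_C, eval_sub,
      eval_X, eval_C, mul_eq_zero, sub_eq_zero] at h1
    exact h1
  -- lifting of roots
  have hlift : ∀ R : Multiset L, (∀ x ∈ R, IsIntegral ℤ x) →
      ∃ R' : Multiset (𝓞 L), R'.map (algebraMap (𝓞 L) L) = R := by
    intro R
    induction R using Multiset.induction_on with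
    | empty => exact fun _ => ⟨0, rfl⟩
    | cons a s ih =>
      intro hR
      obtain ⟨R', hR'⟩ := ih fun x hx => hR x (Multiset.mem_cons_of_mem hx)
      obtain ⟨a', ha'⟩ : ∃ a' : 𝓞 L, algebraMap (𝓞 L) L a' = a :=
        ⟨⟨a, hR a (Multiset.mem_cons_self a s)⟩, rfl⟩
      refine ⟨a' ::ₘ R', ?_⟩
      rw [Multiset.map_cons, hR', ha']
  obtain ⟨t₁, ht₁, hφt₁⟩ : ∃ t₁ : 𝓞 L, aeval t₁ h = 0 ∧ φ t₁ = ψ t := by
    obtain ⟨R', hR'⟩ := hlift (h.map (algebraMap ℤ L)).roots (by
      intro x hx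
      have h1 := (mem_roots'.1 hx).2
      rw [IsRoot.def, eval_map] at h1
      exact ⟨h, hm, h1⟩)
    have h1 : h.map (algebraMap ℤ L) = (h.map (algebraMap ℤ (𝓞 L))).map
        (algebraMap (𝓞 L) L) := by
      rw [Polynomial.map_map]
      congr 1
    have h2 : h.map (algebraMap ℤ (𝓞 L)) = (R'.map (fun a => X - C a)).prod := by
      apply Polynomial.map_injective (algebraMap (𝓞 L) L) RingOfIntegers.coe_injective
      rw [← h1, hsplit.eq_prod_roots_of_monic (hm.map _), ← hR', Polynomial.map_multiset_prod,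
        Multiset.map_map, Multiset.map_map]
      congr 1
      refine Multiset.map_congr rfl fun x _ => ?_
      simp
    have h3 : (h.map (Int.castRingHom k)).eval (ψ t) = 0 := by
      rw [hmapk, hfac, Polynomial.map_mul, eval_mul, Polynomial.map_sub, map_X, map_C, eval_sub,
        eval_X, eval_C, sub_self, zero_mul]
    have h4 : h.map (Int.castRingHom k) = (R'.map (fun a => X - C (φ a))).prod := by
      have h5 : h.map (Int.castRingHom k) = (h.map (algebraMap ℤ (𝓞 L))).map φ := by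
        rw [Polynomial.map_map]
        congr 1
        exact RingHom.ext_int _ _
      rw [h5, h2, Polynomial.map_multiset_prod, Multiset.map_map]
      congr 1
      refine Multiset.map_congr rfl fun x _ => ?_
      simp
    rw [h4, eval_multiset_prod, Multiset.map_map, Multiset.prod_eq_zero_iff, Multiset.mem_map] at h3
    obtain ⟨t', ht', ht2⟩ := h3
    refine ⟨t', ?_, ?_⟩
    · have h5 : (h.map (algebraMap ℤ (𝓞 L))).eval t' = 0 := by
        rw [h2, eval_multiset_prod, Multiset.map_map]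
        refine Multiset.prod_eq_zero (Multiset.mem_map.2 ⟨t', ht', ?_⟩)
        simp
      rw [eval_map] at h5
      exact h5
    · simp only [Function.comp_apply, eval_sub, eval_X, eval_C] at ht2
      exact (sub_eq_zero.1 ht2).symm
  have hsmul : ∀ x : 𝓞 L, ((σ • x : 𝓞 L) : L) = σ (x : L) := fun x => rfl
  have hσt : ∀ b : 𝓞 L, aeval b h = 0 → aeval (σ • b) h = 0 := by
    intro b hb
    apply RingOfIntegers.coe_injective
    have h1 := aeval_algebraMap_apply L (σ • b) h
    have h2 := aeval_algebraMap_apply L b h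
    rw [hb, map_zero] at h2
    have h3 : aeval (σ ((algebraMap (𝓞 L) L) b)) h = σ (aeval ((algebraMap (𝓞 L) L) b) h) := by
      change eval₂ _ _ _ = σ (eval₂ _ _ _)
      rw [← AlgEquiv.coe_ringEquiv σ, ← RingEquiv.coe_toRingHom, Polynomial.hom_eval₂]
      congr 1
      exact RingHom.ext_int _ _
    rw [h2, map_zero] at h3
    exact h1.symm.trans (h3.trans (map_zero _).symm)
  have hψl : ∀ x : ZMod l, ψ x ^ l = ψ x := by
    intro x
    rw [← map_pow, ZMod.pow_card]
  have hσt₁ : σ • t₁ = t₁ := by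
    refine eq_of_map_eq φ h hsep (σ • t₁) t₁ (hσt t₁ ht₁) ht₁ ?_
    rw [hσ, hφt₁, hψl]

  have hint : ∀ θ : L, aeval θ h = 0 → ∃ b : 𝓞 L, (b : L) = θ ∧ aeval b h = 0 := by
    intro θ hθ
    have h1 : IsIntegral ℤ θ := ⟨h, hm, hθ⟩
    refine ⟨⟨θ, h1⟩, rfl, ?_⟩
    apply RingOfIntegers.coe_injective
    have h5 := aeval_algebraMap_apply L (⟨θ, h1⟩ : 𝓞 L) h
    exact h5.symm.trans (hθ.trans (map_zero _).symm)
  have huφ : ∀ b : 𝓞 L, aeval b h = 0 → b ≠ t₁ → (u.map ψ).eval (φ b) = 0 := by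
    intro b hb hne
    rcases hroot b hb with h2 | h2
    · exact absurd (eq_of_map_eq φ h hsep b t₁ hb ht₁ (by rw [h2, hφt₁])) hne
    · exact h2
  have hprime : ∀ x : k, x ^ l = x → ∃ s : ZMod l, ψ s = x := by
    intro x hx
    by_contra hno
    push Not at hno
    have hq : (X ^ l - X : k[X]) ≠ 0 := FiniteField.X_pow_card_sub_X_ne_zero k hl.one_lt
    have hdegq : (X ^ l - X : k[X]).natDegree = l :=
      FiniteField.X_pow_card_sub_X_natDegree_eq k hl.one_lt
    have hsub : insert x (Finset.univ.image ψ) ⊆ (X ^ l - X : k[X]).roots.toFinset := by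
      intro y hy
      rw [Multiset.mem_toFinset, mem_roots hq, IsRoot.def, eval_sub, eval_pow, eval_X, sub_eq_zero]
      rw [Finset.mem_insert, Finset.mem_image] at hy
      rcases hy with rfl | ⟨s, _, rfl⟩
      · exact hx
      · exact hψl s
    have hc1 := Finset.card_le_card hsub
    have hc2 : (X ^ l - X : k[X]).roots.toFinset.card ≤ l :=
      (Multiset.toFinset_card_le _).trans ((card_roots' _).trans hdegq.le)
    rw [Finset.card_insert_of_notMem, Finset.card_image_of_injective _ hψ, Finset.card_univ,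
      ZMod.card] at hc1
    · omega
    · intro hx
      rw [Finset.mem_image] at hx
      obtain ⟨s, _, hs⟩ := hx
      exact hno s hs
  refine ⟨(t₁ : L), ?_, ?_⟩
  · rw [aeval_algebraMap_apply, ht₁, map_zero]
  intro θ θ' hθ hθ' hne hne'
  obtain ⟨b, rfl, hb⟩ := hint θ hθ
  obtain ⟨b', rfl, hb'⟩ := hint θ' hθ'
  have hbt : b ≠ t₁ := fun e => hne (by rw [e])
  have hbt' : b' ≠ t₁ := fun e => hne' (by rw [e])
  -- the orbit
  set O : Finset (𝓞 L) := Finset.univ.image
    (fun g : Subgroup.zpowers σ => (g : L ≃ₐ[ℚ] L) • b) with hO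
  have hOσ : O.image (fun x => σ • x) = O := by
    apply Finset.eq_of_subset_of_card_le
    · intro x hx
      rw [Finset.mem_image] at hx
      obtain ⟨y, hy, rfl⟩ := hx
      rw [hO, Finset.mem_image] at hy ⊢
      obtain ⟨g, -, rfl⟩ := hy
      exact ⟨⟨σ, Subgroup.mem_zpowers σ⟩ * g, Finset.mem_univ _, by
        rw [Subgroup.coe_mul, mul_smul]⟩
    · rw [Finset.card_image_of_injective _ (MulAction.injective σ)]
  set G : k[X] := ∏ x ∈ O, (X - C (φ x)) with hG
  have hGl : G.map (frobenius k l) = G := by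
    rw [hG, Polynomial.map_prod]
    conv_rhs => rw [← hOσ, Finset.prod_image fun x _ y _ h => MulAction.injective σ h]
    refine Finset.prod_congr rfl fun x _ => ?_
    rw [Polynomial.map_sub, map_X, map_C, frobenius_def, hσ]
  have hcoef : ∀ n, ∃ s : ZMod l, ψ s = G.coeff n := by
    intro n
    apply hprime
    have h1 := congrArg (fun f : k[X] => f.coeff n) hGl
    simp only [coeff_map, frobenius_def] at h1
    exact h1
  obtain ⟨v, hv⟩ : ∃ v : (ZMod l)[X], v.map ψ = G := by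
    have h1 : G ∈ Polynomial.lifts ψ := by
      rw [Polynomial.lifts_iff_coeff_lifts]
      intro n
      obtain ⟨s, hs⟩ := hcoef n
      exact ⟨s, hs⟩
    exact (Polynomial.mem_lifts G).1 h1
  have hbO : b ∈ O := by
    rw [hO, Finset.mem_image]
    exact ⟨1, Finset.mem_univ _, by rw [Subgroup.coe_one, one_smul]⟩
  have huv : u ∣ v := by
    by_contra hnd
    have hcop := (huirr.coprime_iff_not_dvd.2 hnd)
    obtain ⟨c₁, c₂, hc⟩ := hcop
    have h1 := congrArg (fun f : (ZMod l)[X] => (f.map ψ).eval (φ b)) hc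
    simp only [Polynomial.map_add, Polynomial.map_mul, eval_add, eval_mul, Polynomial.map_one,
      eval_one] at h1
    rw [huφ b hb hbt, hv, hG, eval_prod, Finset.prod_eq_zero hbO (by simp), mul_zero, mul_zero,
      add_zero] at h1
    exact zero_ne_one h1
  have h1 : G.eval (φ b') = 0 := by
    obtain ⟨v', rfl⟩ := huv
    rw [← hv, Polynomial.map_mul, eval_mul, huφ b' hb' hbt', zero_mul]
  rw [hG, eval_prod, Finset.prod_eq_zero_iff] at h1
  obtain ⟨x, hx, hx2⟩ := h1
  rw [eval_sub, eval_X, eval_C, sub_eq_zero] at hx2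
  rw [hO, Finset.mem_image] at hx
  obtain ⟨g, -, rfl⟩ := hx
  have hsmul' : ∀ (g : L ≃ₐ[ℚ] L) (x : 𝓞 L), ((g • x : 𝓞 L) : L) = g (x : L) := fun g x => rfl
  have hgt : ∀ (g : L ≃ₐ[ℚ] L) (b : 𝓞 L), aeval b h = 0 → aeval (g • b) h = 0 := by
    intro g b hb
    apply RingOfIntegers.coe_injective
    have h1 := aeval_algebraMap_apply L (g • b) h
    have h2 := aeval_algebraMap_apply L b h
    rw [hb, map_zero] at h2
    have h3 : aeval (g ((algebraMap (𝓞 L) L) b)) h = g (aeval ((algebraMap (𝓞 L) L) b) h) := by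
      change eval₂ _ _ _ = g (eval₂ _ _ _)
      rw [← AlgEquiv.coe_ringEquiv g, ← RingEquiv.coe_toRingHom, Polynomial.hom_eval₂]
      congr 1
      exact RingHom.ext_int _ _
    rw [h2, map_zero] at h3
    exact h1.symm.trans (h3.trans (map_zero _).symm)
  have h2 : b' = (g : L ≃ₐ[ℚ] L) • b :=
    eq_of_map_eq φ h hsep b' _ hb' (hgt _ _ hb) hx2
  refine ⟨g, ?_, ?_⟩
  · have h3 : ∀ g ∈ Subgroup.zpowers σ, g • t₁ = t₁ := by
      intro g hg
      have h4 : Subgroup.zpowers σ ≤ MulAction.stabilizer (L ≃ₐ[ℚ] L) t₁ := by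
        rw [Subgroup.zpowers_le]
        exact hσt₁
      exact h4 hg
    rw [← hsmul', h3 _ g.2]
  · rw [← hsmul', ← h2]

/-- **All pairs of roots are edges.** -/
theorem all_edges {I : Type} {q : I → ℕ} {h : I → ℤ[X]} {R : ℤ[X]}
    (hm : ∀ i, (h i).Monic) (L : Type) [Field L] [NumberField L] [IsGalois ℚ L] (i : I)
    (hirr : Irreducible ((h i).map (Int.castRingHom ℚ)))
    (θ₀ θ₁ : L) (hθ₀ : aeval θ₀ (h i) = 0) (hθ₁ : aeval θ₁ (h i) = 0) (hne : θ₀ ≠ θ₁)
    (hE : W928.MF.Edg q h R i θ₀ θ₁) (ϑ : L) (hϑ : aeval ϑ (h i) = 0)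
    (htr : ∀ θ θ' : L, aeval θ (h i) = 0 → aeval θ' (h i) = 0 → θ ≠ ϑ → θ' ≠ ϑ →
      ∃ g : L ≃ₐ[ℚ] L, g ϑ = ϑ ∧ g θ = θ')
    (θ θ' : L) (hθ : aeval θ (h i) = 0) (hθ' : aeval θ' (h i) = 0) (hne' : θ ≠ θ') :
    W928.MF.Edg q h R i θ θ' := by
  obtain ⟨τ₀, hτ₀⟩ := W928.MF.exists_perm (hm i) hirr L θ₀ ϑ hθ₀ hϑ
  obtain ⟨τ₁, hτ₁⟩ := W928.MF.exists_perm (hm i) hirr L ϑ θ hϑ hθ
  have hE1 := W928.MF.edg_conj L i θ₀ θ₁ τ₀ hE
  rw [hτ₀] at hE1
  have hroot : aeval (τ₀ θ₁) (h i) = 0 := Pool.Agent.W521.Criterion.aeval_alg L _ _ _ hθ₁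
  have hne1 : τ₀ θ₁ ≠ ϑ := by
    rw [← hτ₀]
    intro e
    exact hne (τ₀.injective e).symm
  have hroot' : aeval (τ₁.symm θ') (h i) = 0 := Pool.Agent.W521.Criterion.aeval_alg L _ _ _ hθ'
  have hne2 : τ₁.symm θ' ≠ ϑ := by
    intro e
    apply hne'
    rw [← hτ₁, ← e, τ₁.apply_symm_apply]
  obtain ⟨g, hg1, hg2⟩ := htr _ _ hroot hroot' hne1 hne2
  have hE2 := W928.MF.edg_conj L i _ _ g hE1
  rw [hg1, hg2] at hE2
  have hE3 := W928.MF.edg_conj L i _ _ τ₁ hE2
  rw [hτ₁, τ₁.apply_symm_apply] at hE3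
  exact hE3

end Pool.Agent.W5h58.GT
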