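import Pool.Agent.W5h58.GT.Num
import Pool.Agent.W5h58.GT.Fix

/-!
# Slopes and the integrality of products of Frobenius eigenvalues: sign changes and averages
-/

set_option autoImplicit false

open Polynomial NumberField

namespace Pool.Agent.W5h58.GT

open Pool.Agent.W458.MF Pool.Agent.W521.Frob Pool.Agent.W521.Criterion Pool.Agent.W338.MF
  Pool.Agent.W928.MF

section

variable {I : Type} {q : I → ℕ} {h : I → ℤ[X]} {R : ℤ[X]}
  {L : Type} [Field L] [NumberField L]

/-- The root `β` is above the absorbing root. -/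
def Abs (q : I → ℕ) (o : I → Prop) (ϑ : I → L) (i : I) (β : L) : Prop :=
  o i ∧ β + (q i : L) / β = ϑ i

/-- An automorphism which exchanges `α` and `q / α` and fixes all other roots up to the absorbing
roots. -/
def FlpAbs (q : I → ℕ) (h : I → ℤ[X]) (o : I → Prop) (ϑ : I → L) (i : I) (α : L) : Prop :=
  ∃ σ : L ≃ₐ[ℚ] L, σ α = q i / α ∧
    (∀ β : L, aeval β (weil (q i) (h i)) = 0 → β ≠ α → β ≠ q i / α → ¬ Abs q o ϑ i β → σ β = β) ∧
    (∀ i', ∀ β : L, aeval β (weil (q i') (h i')) = 0 → σ β = β ∨ σ β = q i' / β) ∧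
    (∀ i', i' ≠ i → ∀ β : L, aeval β (weil (q i') (h i')) = 0 → σ β = β)

lemma same_sum (hq : ∀ i, q i ≠ 0) (i : I) (β γ : L) (hβ : β ≠ 0) (hγ : γ ≠ 0)
    (e : β + (q i : L) / β = γ + (q i : L) / γ) : β = γ ∨ β = (q i : L) / γ := by
  have h1 : (β - γ) * (β - (q i : L) / γ) = 0 := by
    have h2 : β * ((q i : L) / β) = q i := by field_simp
    have h3 : γ * ((q i : L) / γ) = q i := by field_simp
    have h4 : β * (β + (q i : L) / β) = β * (γ + (q i : L) / γ) := by rw [e]
    linear_combination h4 - h2 + h3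
  rcases mul_eq_zero.1 h1 with h2 | h2
  · exact Or.inl (sub_eq_zero.1 h2)
  · exact Or.inr (sub_eq_zero.1 h2)

/-- The sign changes with absorbing roots exist. -/
lemma flpAbs_of (hq : ∀ i, q i ≠ 0) (hm : ∀ i, (h i).Monic) {o : I → Prop} {ϑ : I → L}
    (hϑ : ∀ i, o i → aeval (ϑ i) (h i) = 0)
    (key : ∀ i, ¬ o i → ∀ α : L, aeval α (weil (q i) (h i)) = 0 → Flp q h R i α)
    (key2 : ∀ i, o i → ∀ θ θ' : L, aeval θ (h i) = 0 → aeval θ' (h i) = 0 → θ ≠ θ' →
      Edg q h R i θ θ') (i : I) (α : L) (hα : aeval α (weil (q i) (h i)) = 0)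
    (hab : ¬ Abs q o ϑ i α) : FlpAbs q h o ϑ i α := by
  have hqL : ∀ i, (q i : L) ≠ 0 := fun i => by exact_mod_cast hq i
  have hα0 := root_ne_zero (hq i) (hm i) hα
  by_cases ho : o i
  · have hne : α + (q i : L) / α ≠ ϑ i := fun e => hab ⟨ho, e⟩
    have hθ := ((root_iff (hq i) (hm i) α).1 hα).2
    obtain ⟨σ, s1, s2, s3, -⟩ := key2 i ho _ _ hθ (hϑ i ho) hne
    refine ⟨σ, (s1 α hα (Or.inl rfl)).1, ?_, ?_, s3⟩
    · intro β hβ n1 n2 n3
      have hβ0 := root_ne_zero (hq i) (hm i) hβ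
      refine s2 β hβ ?_ fun e => n3 ⟨ho, e⟩
      intro e
      rcases same_sum hq i β α hβ0 hα0 e with e | e
      · exact n1 e
      · exact n2 e
    · intro i' β hβ
      by_cases hi : i' = i
      · subst hi
        by_cases h1 : β + (q i' : L) / β = α + (q i' : L) / α
        · exact Or.inr (s1 β hβ (Or.inl h1)).1
        · by_cases h2 : β + (q i' : L) / β = ϑ i'
          · exact Or.inr (s1 β hβ (Or.inr h2)).1
          · exact Or.inl (s2 β hβ h1 h2)
      · exact Or.inl (s3 i' hi β hβ)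
  · obtain ⟨σ, s1, -, s3, s4, -⟩ := key i ho α hα
    refine ⟨σ, s1, fun β hβ n1 n2 _ => s3 β hβ n1 n2, ?_, s4⟩
    intro i' β hβ
    by_cases hi : i' = i
    · subst hi
      by_cases h1 : β = α
      · subst h1
        exact Or.inr s1
      · by_cases h2 : β = q i' / α
        · subst h2
          right
          rw [map_div₀, map_natCast, s1]
        · exact Or.inl (s3 β hβ h1 h2)
    · exact Or.inl (s4 i' hi β hβ)

lemma abs_conj (hq : ∀ i, q i ≠ 0) {o : I → Prop} {ϑ : I → L} (i : I) (β : L) :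
    Abs q o ϑ i ((q i : L) / β) ↔ Abs q o ϑ i β := by
  have hqL : (q i : L) ≠ 0 := by exact_mod_cast hq i
  unfold Abs
  rw [div_div_cancel₀ hqL, add_comm]

/-- products of sign changes -/
lemma exists_flip (hq : ∀ i, q i ≠ 0) (hm : ∀ i, (h i).Monic) {o : I → Prop} {ϑ : I → L}
    (key : ∀ i, ∀ α : L, aeval α (weil (q i) (h i)) = 0 → ¬ Abs q o ϑ i α → FlpAbs q h o ϑ i α)
    (l : List (I × L)) (hl : ∀ x ∈ l, aeval x.2 (weil (q x.1) (h x.1)) = 0)
    (hno : ∀ x ∈ l, (x.1, (q x.1 : L) / x.2) ∉ l) (T : List (I × L))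
    (hT : ∀ x ∈ T, x ∈ l ∧ ¬ Abs q o ϑ x.1 x.2) :
    ∃ τ : L ≃ₐ[ℚ] L, ∀ i β, aeval β (weil (q i) (h i)) = 0 →
      (τ β = β ∨ τ β = q i / β) ∧
      (((i, β) ∈ T ∨ (i, (q i : L) / β) ∈ T) → τ β = q i / β) ∧
      (¬ Abs q o ϑ i β → ¬ ((i, β) ∈ T ∨ (i, (q i : L) / β) ∈ T) → τ β = β) := by
  classical
  have hqL : ∀ i, (q i : L) ≠ 0 := fun i => by exact_mod_cast hq i
  induction T with
  | nil => exact ⟨AlgEquiv.refl, fun i β _ => ⟨Or.inl rfl, by simp, fun _ _ => rfl⟩⟩
  | cons x T ih =>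
    obtain ⟨τ, hτ⟩ := ih fun y hy => hT y (List.mem_cons_of_mem _ hy)
    by_cases hx : x ∈ T
    · refine ⟨τ, fun i β hβ => ?_⟩
      have e : ∀ y, y ∈ x :: T ↔ y ∈ T := fun y => by
        rw [List.mem_cons]
        constructor
        · rintro (rfl | h1)
          · exact hx
          · exact h1
        · exact Or.inr
      rw [e, e]
      exact hτ i β hβ
    · obtain ⟨hxl, hxa⟩ := hT x List.mem_cons_self
      have hcT : (x.1, (q x.1 : L) / x.2) ∉ T := fun hc =>
        hno x hxl (hT _ (List.mem_cons_of_mem _ hc)).1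
      obtain ⟨σ, s1, s3, s5, s4⟩ := key x.1 x.2 (hl x hxl) hxa
      obtain ⟨i₀, α₀⟩ := x
      dsimp only at *
      refine ⟨τ.trans σ, fun i β hβ => ?_⟩
      rw [AlgEquiv.trans_apply]
      have h0 := hτ i β hβ
      have hβ0 := root_ne_zero (hq i) (hm i) hβ
      have hcβ := root_conj (hq i) (hm i) hβ
      refine ⟨?_, ?_⟩
      · rcases h0.1 with e | e
        · rw [e]
          exact s5 i β hβ
        · rw [e]
          rcases s5 i _ hcβ with e' | e'
          · exact Or.inr e'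
          · left
            rw [e', div_div_cancel₀ (hqL i)]
      by_cases h1 : i = i₀ ∧ β = α₀
      · obtain ⟨rfl, rfl⟩ := h1
        refine ⟨fun _ => ?_, fun _ h => (h (Or.inl List.mem_cons_self)).elim⟩
        rw [h0.2.2 hxa (by rintro (h | h); exacts [hx h, hcT h]), s1]
      · by_cases h2 : i = i₀ ∧ β = q i / α₀
        · obtain ⟨rfl, rfl⟩ := h2
          have e1 : (q i : L) / (q i / α₀) = α₀ := div_div_cancel₀ (hqL i)
          have hna : ¬ Abs q o ϑ i ((q i : L) / α₀) := fun h => hxa ((abs_conj hq i α₀).1 h)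
          rw [e1] at h0 ⊢
          refine ⟨fun _ => ?_, fun _ h => (h (Or.inr List.mem_cons_self)).elim⟩
          rw [h0.2.2 hna (by rintro (h | h); exacts [hcT h, hx h]), map_div₀, map_natCast, s1, e1]
        · have hσ : ∀ γ, aeval γ (weil (q i) (h i)) = 0 → ¬ Abs q o ϑ i γ →
              (i = i₀ → γ ≠ α₀ ∧ γ ≠ q i / α₀) → σ γ = γ := by
            intro γ hγ hna hne
            by_cases hi : i = i₀
            · subst hi
              exact s3 γ hγ (hne rfl).1 (hne rfl).2 hna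
            · exact s4 i hi γ hγ
          have n1 : i = i₀ → β ≠ α₀ ∧ β ≠ q i / α₀ := fun hi =>
            ⟨fun hb => h1 ⟨hi, hb⟩, fun hb => h2 ⟨hi, hb⟩⟩
          have n2 : i = i₀ → (q i : L) / β ≠ α₀ ∧ (q i : L) / β ≠ q i / α₀ := by
            intro hi
            refine ⟨fun hb => (n1 hi).2 ?_, fun hb => (n1 hi).1 ?_⟩
            · rw [← hb, div_div_cancel₀ (hqL i)]
            · have h3 := congrArg (fun z => (q i : L) / z) hb
              simp only [div_div_cancel₀ (hqL i)] at h3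
              exact h3
          have e : ((i, β) ∈ (i₀, α₀) :: T ∨ (i, (q i : L) / β) ∈ (i₀, α₀) :: T) ↔
              ((i, β) ∈ T ∨ (i, (q i : L) / β) ∈ T) := by
            rw [List.mem_cons, List.mem_cons, Prod.mk.injEq, Prod.mk.injEq]
            constructor
            · rintro ((⟨hi, hb⟩ | h3) | (⟨hi, hb⟩ | h3))
              · exact absurd ⟨hi, hb⟩ h1
              · exact Or.inl h3
              · exact absurd hb (n2 hi).1
              · exact Or.inr h3
            · rintro (h3 | h3)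
              · exact Or.inl (Or.inr h3)
              · exact Or.inr (Or.inr h3)
          rw [e]
          constructor
          · intro h3
            have hna : ¬ Abs q o ϑ i β := by
              rcases h3 with h3 | h3
              · exact (hT _ (List.mem_cons_of_mem _ h3)).2
              · exact fun h => (hT _ (List.mem_cons_of_mem _ h3)).2 ((abs_conj hq i β).2 h)
            rw [h0.2.1 h3]
            exact hσ _ hcβ (fun h => hna ((abs_conj hq i β).1 h)) n2
          · intro hna h3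
            rw [h0.2.2 hna h3]
            exact hσ _ hβ hna n1

/-- The sign changes which make the absolute values of the roots in a list maximal. -/
lemma exists_max (hq : ∀ i, q i ≠ 0) (hm : ∀ i, (h i).Monic) {o : I → Prop} {ϑ : I → L}
    (key : ∀ i, ∀ α : L, aeval α (weil (q i) (h i)) = 0 → ¬ Abs q o ϑ i α → FlpAbs q h o ϑ i α)
    (N : AbsoluteValue L ℝ) (l : List (I × L))
    (hl : ∀ x ∈ l, aeval x.2 (weil (q x.1) (h x.1)) = 0)
    (hno : ∀ x ∈ l, (x.1, (q x.1 : L) / x.2) ∉ l) :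
    ∃ τ : L ≃ₐ[ℚ] L, ∀ x ∈ l, (τ x.2 = x.2 ∨ τ x.2 = q x.1 / x.2) ∧
      (¬ Abs q o ϑ x.1 x.2 → max (N x.2) (N ((q x.1 : L) / x.2)) ≤ N (τ x.2)) := by
  classical
  obtain ⟨τ, hτ⟩ := exists_flip hq hm key l hl hno
    (l.filter fun x => decide (N x.2 < N ((q x.1 : L) / x.2) ∧ ¬ Abs q o ϑ x.1 x.2))
    fun x hx => by
      rw [List.mem_filter, decide_eq_true_eq] at hx
      exact ⟨hx.1, hx.2.2⟩
  refine ⟨τ, fun x hx => ?_⟩
  obtain ⟨h0, h1, h2⟩ := hτ x.1 x.2 (hl x hx)
  refine ⟨h0, fun hna => ?_⟩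
  by_cases h3 : N x.2 < N ((q x.1 : L) / x.2)
  · rw [h1 (Or.inl (List.mem_filter.2 ⟨hx, by rw [decide_eq_true_eq]; exact ⟨h3, hna⟩⟩)),
      max_eq_right h3.le]
  · rw [h2 hna, max_eq_left (not_lt.1 h3)]
    rintro (h4 | h4)
    · have := (List.mem_filter.1 h4).2
      rw [decide_eq_true_eq] at this
      exact h3 this.1
    · exact hno x hx (List.mem_filter.1 h4).1

end

section

variable {L : Type} [Field L] [NumberField L] [IsGalois ℚ L]

/-- The sum of the values of a function at the conjugates of a root. -/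
lemma sum_conj {h : ℤ[X]} (hm : h.Monic) (hirr : Irreducible (h.map (Int.castRingHom ℚ)))
    (hs : (h.map (algebraMap ℤ L)).Splits) (f : L → ℝ) (θ : L) (hθ : aeval θ h = 0) :
    (h.natDegree : ℝ) * ∑ σ : L ≃ₐ[ℚ] L, f (σ θ) =
      (Fintype.card (L ≃ₐ[ℚ] L) : ℝ) * ((h.map (algebraMap ℤ L)).roots.map f).sum := by
  classical
  have e1 : (h.map (Int.castRingHom ℚ)).map (algebraMap ℚ L) = h.map (algebraMap ℤ L) := by
    rw [Polynomial.map_map]
    congr 1
    exact RingHom.ext_int _ _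
  have hHm : (h.map (algebraMap ℤ L)).Monic := hm.map _
  have hHsep : (h.map (algebraMap ℤ L)).Separable := by
    rw [← e1, separable_map]
    exact hirr.separable
  have hHnd : (h.map (algebraMap ℤ L)).roots.Nodup :=
    (nodup_roots_iff_of_splits hHm.ne_zero hs).2 hHsep
  have hHc : Multiset.card (h.map (algebraMap ℤ L)).roots = h.natDegree := by
    rw [splits_iff_card_roots.1 hs, hm.natDegree_map]
  set S := (h.map (algebraMap ℤ L)).roots.toFinset with hS
  have hcard : S.card = h.natDegree := by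
    rw [hS, Multiset.toFinset_card_of_nodup hHnd, hHc]
  have hmem : ∀ x : L, x ∈ S ↔ aeval x h = 0 := by
    intro x
    rw [hS, Multiset.mem_toFinset, mem_roots hHm.ne_zero, IsRoot.def, eval_map]
    rfl
  have hsum : ((h.map (algebraMap ℤ L)).roots.map f).sum = ∑ x ∈ S, f x := by
    rw [Finset.sum, hS, Multiset.toFinset_val, Multiset.dedup_eq_self.2 hHnd]
  have hmin : ∀ θ : L, aeval θ h = 0 → minpoly ℚ θ = h.map (Int.castRingHom ℚ) := by
    intro θ hθ
    refine (minpoly.eq_of_irreducible_of_monic hirr ?_ (hm.map _)).symm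
    rw [aeval_def, eval₂_map, RingHom.ext_int ((algebraMap ℚ L).comp _) (algebraMap ℤ L)]
    exact hθ
  have h1 : ∀ θ' ∈ S, ∑ σ : L ≃ₐ[ℚ] L, f (σ θ') = ∑ σ : L ≃ₐ[ℚ] L, f (σ θ) := by
    intro θ' hθ'
    rw [hmem] at hθ'
    obtain ⟨τ, hτ⟩ := isConjRoot_iff_exists_algEquiv.1
      ((hmin _ hθ').trans (hmin _ hθ).symm : IsConjRoot ℚ θ' θ)
    rw [← hτ]
    exact Fintype.sum_equiv (Equiv.mulRight τ) _ _ fun σ => rfl
  have h2 : ∀ σ : L ≃ₐ[ℚ] L, ∑ x ∈ S, f (σ x) = ∑ x ∈ S, f x := by
    intro σ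
    refine Finset.sum_nbij' (fun x => σ x) (fun x => σ.symm x) ?_ ?_ ?_ ?_ ?_
    · intro x hx
      rw [hmem] at hx ⊢
      exact aeval_alg L _ _ _ hx
    · intro x hx
      rw [hmem] at hx ⊢
      exact aeval_alg L _ _ _ hx
    · intro x _
      exact σ.symm_apply_apply x
    · intro x _
      exact σ.apply_symm_apply x
    · intro x _
      rfl
  rw [hsum, ← hcard]
  calc (S.card : ℝ) * ∑ σ : L ≃ₐ[ℚ] L, f (σ θ) = ∑ θ' ∈ S, ∑ σ : L ≃ₐ[ℚ] L, f (σ θ') := by
        rw [Finset.sum_congr rfl h1, Finset.sum_const, nsmul_eq_mul]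
    _ = ∑ σ : L ≃ₐ[ℚ] L, ∑ θ' ∈ S, f (σ θ') := Finset.sum_comm
    _ = _ := by
        rw [Finset.sum_congr rfl fun σ _ => h2 σ, Finset.sum_const, nsmul_eq_mul,
          Finset.card_univ]

end

/-- The average of the smaller slopes of the pairs of roots is at most `w`: some coefficient of the
polynomial has a small valuation. -/
def Slope (p dm : ℕ) (h : ℤ[X]) (w : ℝ) (m r₀ : ℕ) : Prop :=
  ∃ r, r₀ ≤ r ∧ h.coeff r ≠ 0 ∧
    2 * (padicValInt p (h.coeff r) : ℝ) + r * dm ≤ 2 * w * h.natDegree * m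

section

variable {p : ℕ} {L : Type} [Field L] {N : AbsoluteValue L ℝ}

lemma max_ge (hN : IsVal p N) {Q : ℕ} {α : L} (hα : α ≠ 0) :
    max (N (α + Q / α)) (Real.sqrt (N (Q : L))) ≤ max (N α) (N ((Q : L) / α)) := by
  refine max_le (hN.add_le _ _) ?_
  have h1 : N (Q : L) = N α * N ((Q : L) / α) := by
    rw [← map_mul]
    congr 1
    field_simp
  rw [h1]
  have h2 : N α * N ((Q : L) / α) ≤ (max (N α) (N ((Q : L) / α))) ^ 2 := by
    rw [sq]
    exact mul_le_mul (le_max_left _ _) (le_max_right _ _) (N.nonneg _)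
      (le_max_of_le_left (N.nonneg _))
  exact Real.sqrt_le_iff.2 ⟨le_max_of_le_left (N.nonneg _), h2⟩

lemma max_le' (hN : IsVal p N) {Q : ℕ} {α : L} (hα : α ≠ 0) :
    max (N α) (N ((Q : L) / α)) ≤ max (N (α + Q / α)) (Real.sqrt (N (Q : L))) := by
  have h1 : N (Q : L) = N α * N ((Q : L) / α) := by
    rw [← map_mul]
    congr 1
    field_simp
  rcases lt_trichotomy (N α) (N ((Q : L) / α)) with h | h | h
  · rw [max_eq_right h.le]
    have h2 := sub_le hN (α + Q / α) α
    rw [add_sub_cancel_left] at h2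
    rcases le_max_iff.1 h2 with h3 | h3
    · exact le_max_of_le_left h3
    · exact absurd h3 (not_le.2 h)
  · rw [h1, ← h, max_self, Real.sqrt_mul_self (N.nonneg _)]
    exact le_max_right _ _
  · rw [max_eq_left h.le]
    have h2 := sub_le hN (α + Q / α) (Q / α)
    rw [add_sub_cancel_right] at h2
    rcases le_max_iff.1 h2 with h3 | h3
    · exact le_max_of_le_left h3
    · exact absurd h3 (not_le.2 h)

lemma log_prod (s : Multiset ℝ) (hs : ∀ x ∈ s, x ≠ 0) : Real.log s.prod = (s.map Real.log).sum := by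
  induction s using Multiset.induction_on with
  | empty => simp
  | cons a s ih =>
    rw [Multiset.prod_cons, Multiset.map_cons, Multiset.sum_cons, Real.log_mul
      (hs a (Multiset.mem_cons_self a s)), ih fun x hx => hs x (Multiset.mem_cons_of_mem hx)]
    exact Multiset.prod_ne_zero fun h0 => hs 0 (Multiset.mem_cons_of_mem h0) rfl

/-- The sum of the logarithms over the roots; if the absorbing root has the smallest absolute value,
then twice its excess can be subtracted. -/
lemma sum_log_ge (hN : IsVal p N) [CharZero L] (hp : p.Prime) {dm m r₀ : ℕ} {h : ℤ[X]}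
    (hm : h.Monic) (hs : (h.map (algebraMap ℤ L)).Splits) {w : ℝ} (hw : Slope p dm h w m r₀)
    {B : ℝ} (hB : Real.sqrt (N ((p ^ dm : ℕ) : L)) ≤ B)
    (hBmin : ∀ θ : L, aeval θ h = 0 → B ≤ max (N θ) (Real.sqrt (N ((p ^ dm : ℕ) : L))))
    (hr₀ : r₀ = 2 ∨ B = Real.sqrt (N ((p ^ dm : ℕ) : L))) :
    -(w * h.natDegree * m * Real.log p) ≤
      ((h.map (algebraMap ℤ L)).roots.map fun θ =>
        Real.log (max (N θ) (Real.sqrt (N ((p ^ dm : ℕ) : L))))).sum -
        (2 * Real.log B - Real.log (N ((p ^ dm : ℕ) : L))) := by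
  obtain ⟨r, hrr, hr0, hr⟩ := hw
  set ρ := Real.sqrt (N ((p ^ dm : ℕ) : L)) with hρ
  have hp0 : (0 : ℝ) < p := by exact_mod_cast hp.pos
  have hNp : N ((p ^ dm : ℕ) : L) = (p : ℝ)⁻¹ ^ dm := by
    rw [Nat.cast_pow, map_pow, hN.p_eq]
  have hρ0 : 0 < ρ := by
    rw [hρ, hNp]
    exact Real.sqrt_pos.2 (by positivity)
  have hB0 : 0 < B := hρ0.trans_le hB
  have h1 := coeff_prod_le hN hB0.le (h.map (algebraMap ℤ L)).roots r
  rw [← hs.eq_prod_roots_of_monic (hm.map _), coeff_map, eq_intCast] at h1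
  have hBeq : ((h.map (algebraMap ℤ L)).roots.map fun θ => max (N θ) B) =
      (h.map (algebraMap ℤ L)).roots.map fun θ => max (N θ) ρ := by
    refine Multiset.map_congr rfl fun θ hθ => ?_
    have hθ' : aeval θ h = 0 := by
      have h2 := (mem_roots'.1 hθ).2
      rw [IsRoot.def, eval_map] at h2
      exact h2
    have h3 := hBmin θ hθ'
    apply le_antisymm
    · exact max_le (le_max_left _ _) h3
    · exact max_le (le_max_left _ _) (le_max_of_le_right hB)
  rw [hBeq] at h1
  have h2 := val_int hN hp (h.coeff r) hr0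
  have hpos : ∀ x ∈ ((h.map (algebraMap ℤ L)).roots.map fun θ => max (N θ) ρ), x ≠ 0 := by
    intro x hx
    obtain ⟨y, -, rfl⟩ := Multiset.mem_map.1 hx
    exact (lt_max_of_lt_right hρ0).ne'
  have h3 : Real.log ((p : ℝ)⁻¹ ^ padicValInt p (h.coeff r) * B ^ r) ≤
      Real.log ((h.map (algebraMap ℤ L)).roots.map fun θ => max (N θ) ρ).prod := by
    refine Real.log_le_log (by positivity) (le_trans ?_ h1)
    exact mul_le_mul_of_nonneg_right h2 (by positivity)
  rw [log_prod _ hpos, Multiset.map_map, Real.log_mul (by positivity) (by positivity),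
    Real.log_pow, Real.log_pow, Real.log_inv] at h3
  have hlρ : Real.log ρ = -(dm * Real.log p) / 2 := by
    rw [hρ, Real.log_sqrt (by rw [hNp]; positivity), hNp, Real.log_pow, Real.log_inv]
    ring
  have hlN : Real.log (N ((p ^ dm : ℕ) : L)) = 2 * Real.log ρ := by
    rw [hlρ, hNp, Real.log_pow, Real.log_inv]
    ring
  have hlB : Real.log ρ ≤ Real.log B := Real.log_le_log hρ0 hB
  have h4 : 2 * (Real.log B - Real.log ρ) ≤ r * (Real.log B - Real.log ρ) := by
    rcases hr₀ with e | e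
    · have : (2 : ℝ) ≤ r := by
        rw [e] at hrr
        exact_mod_cast hrr
      exact mul_le_mul_of_nonneg_right this (by linarith)
    · rw [e, sub_self, mul_zero, mul_zero]
  have h5 : ((h.map (algebraMap ℤ L)).roots.map (Real.log ∘ fun θ => max (N θ) ρ)).sum =
      ((h.map (algebraMap ℤ L)).roots.map fun θ => Real.log (max (N θ) ρ)).sum := rfl
  rw [h5] at h3
  rw [hlN]
  have hlog : 0 < Real.log p := Real.log_pos (by exact_mod_cast hp.one_lt)
  rw [hlρ] at h4 ⊢
  nlinarith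

end

/-- **Integrality and slopes.** -/
theorem weight_le {I : Type} {q : I → ℕ} {h : I → ℤ[X]} {R : ℤ[X]} {p m : ℕ} (hp : p.Prime)
    (hm0 : 0 < m) (d : I → ℕ) (hqd : ∀ i, q i = p ^ (d i * m)) (hm : ∀ i, (h i).Monic)
    (hirr : ∀ i, Irreducible ((h i).map (Int.castRingHom ℚ)))
    {L : Type} [Field L] [NumberField L] [IsGalois ℚ L]
    (hs : ∀ i, ((h i).map (algebraMap ℤ L)).Splits) (o : I → Prop)
    (key : ∀ i, ¬ o i → ∀ α : L, aeval α (weil (q i) (h i)) = 0 → Flp q h R i α)
    (key2 : ∀ i, o i → ∀ θ θ' : L, aeval θ (h i) = 0 → aeval θ' (h i) = 0 → θ ≠ θ' →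
      Edg q h R i θ θ')
    (w : I → ℝ) (r₀ : I → ℕ) (hr₀ : ∀ i, o i → r₀ i = 2)
    (hw : ∀ i, Slope p (d i * m) (h i) (w i) m (r₀ i))
    (l : List (I × L)) (hl : ∀ x ∈ l, aeval x.2 (weil (q x.1) (h x.1)) = 0)
    (hno : ∀ x ∈ l, (x.1, (q x.1 : L) / x.2) ∉ l) (t : ℕ) (ht : 0 < t) (c : ℕ)
    (hint : IsIntegral ℤ ((l.map fun x => x.2 ^ t).prod / (p : L) ^ (m * t * c))) :
    (c : ℝ) ≤ (l.map fun x => w x.1).sum := by
  classical
  obtain ⟨N, hN⟩ := exists_val p hp L
  have hq : ∀ i, q i ≠ 0 := fun i => by rw [hqd i]; exact pow_ne_zero _ hp.pos.ne'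
  have hp0 : (0 : ℝ) < p := by exact_mod_cast hp.pos
  have hlog : 0 < Real.log p := Real.log_pos (by exact_mod_cast hp.one_lt)
  have hNq : ∀ i, N ((q i : ℕ) : L) = (p : ℝ)⁻¹ ^ (d i * m) := by
    intro i
    rw [hqd i, Nat.cast_pow, map_pow, hN.p_eq]
  have hNq0 : ∀ i, 0 < N ((q i : ℕ) : L) := fun i => by rw [hNq]; positivity
  set ρ : I → ℝ := fun i => Real.sqrt (N ((q i : ℕ) : L)) with hρ
  have hρ0 : ∀ i, 0 < ρ i := fun i => Real.sqrt_pos.2 (hNq0 i)
  set S : I → L → ℝ := fun i y => max (N y) (ρ i) with hS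
  have hS0 : ∀ i y, 0 < S i y := fun i y => lt_max_of_lt_right (hρ0 i)
  have hpL : (p : L) ≠ 0 := by exact_mod_cast hp.pos.ne'
  -- the roots
  have hHm : ∀ i, ((h i).map (algebraMap ℤ L)).Monic := fun i => (hm i).map _
  have hmemH : ∀ i (x : L), x ∈ ((h i).map (algebraMap ℤ L)).roots ↔ aeval x (h i) = 0 := by
    intro i x
    rw [mem_roots (hHm i).ne_zero, IsRoot.def, eval_map]
    rfl
  have hg : ∀ i, (0 : ℝ) < (h i).natDegree := by
    intro i
    have h7 := (hirr i).natDegree_pos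
    rw [(hm i).natDegree_map] at h7
    exact_mod_cast h7
  have hroots : ∀ i, ∃ ϑ : L, aeval ϑ (h i) = 0 ∧ ∀ θ : L, aeval θ (h i) = 0 →
      S i ϑ ≤ S i θ := by
    intro i
    have hne : ((h i).map (algebraMap ℤ L)).roots.toFinset.Nonempty := by
      have h1 : Multiset.card ((h i).map (algebraMap ℤ L)).roots = (h i).natDegree := by
        rw [splits_iff_card_roots.1 (hs i), (hm i).natDegree_map]
      have h2 : 0 < (h i).natDegree := by exact_mod_cast hg i
      obtain ⟨x, hx⟩ := Multiset.card_pos_iff_exists_mem.1 (h1 ▸ h2)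
      exact ⟨x, Multiset.mem_toFinset.2 hx⟩
    obtain ⟨ϑ, hϑ, hmin⟩ := Finset.exists_min_image _ (S i) hne
    rw [Multiset.mem_toFinset, hmemH] at hϑ
    exact ⟨ϑ, hϑ, fun θ hθ => hmin θ (Multiset.mem_toFinset.2 ((hmemH i θ).2 hθ))⟩
  choose ϑ hϑ hϑmin using hroots
  have hkey := flpAbs_of (R := R) hq hm (fun i _ => hϑ i) key key2
  -- the function
  set f : I → L → ℝ := fun i y => if o i ∧ y = ϑ i then
    Real.log (N (q i : L)) - Real.log (S i y) else Real.log (S i y) with hf
  -- the inequality for one automorphism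
  have h2 : ∀ σ : L ≃ₐ[ℚ] L,
      (l.map fun x => f x.1 (σ (x.2 + q x.1 / x.2))).sum ≤ -((m : ℝ) * c * Real.log p) := by
    intro σ
    set l' : List (I × L) := l.map fun x => (x.1, σ x.2) with hl'
    have hroot : ∀ x ∈ l', aeval x.2 (weil (q x.1) (h x.1)) = 0 := by
      intro x hx
      obtain ⟨y, hy, rfl⟩ := List.mem_map.1 hx
      exact aeval_alg L _ _ _ (hl y hy)
    have hno' : ∀ x ∈ l', (x.1, (q x.1 : L) / x.2) ∉ l' := by
      intro x hx hc
      obtain ⟨y, hy, rfl⟩ := List.mem_map.1 hx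
      obtain ⟨z, hz, hzy⟩ := List.mem_map.1 hc
      rw [Prod.mk.injEq] at hzy
      obtain ⟨e1, e2⟩ := hzy
      dsimp only at e1 e2
      apply hno y hy
      have e3 : z.2 = (q y.1 : L) / y.2 := by
        apply σ.injective
        rw [e2, map_div₀, map_natCast]
      rw [← e3, ← e1]
      exact hz
    obtain ⟨τ, hτ⟩ := exists_max hq hm hkey N l' hroot hno'
    have h3 : N (τ (σ ((l.map fun x => x.2 ^ t).prod / (p : L) ^ (m * t * c)))) ≤ 1 := by
      apply hN.int_le
      exact (hint.map (σ.toAlgHom.restrictScalars ℤ)).map (τ.toAlgHom.restrictScalars ℤ)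
    rw [map_div₀, map_div₀, map_div₀, map_pow, map_pow, map_natCast, map_natCast, map_pow,
      hN.p_eq, div_le_one (by positivity)] at h3
    have hNpos : ∀ x ∈ l, 0 < N (τ (σ x.2)) := by
      intro x hx
      have ha0 : x.2 ≠ 0 := root_ne_zero (hq _) (hm _) (hl x hx)
      exact N.pos ((map_ne_zero τ).2 ((map_ne_zero σ).2 ha0))
    have h4 : ∀ k : List (I × L), (∀ x ∈ k, x ∈ l) →
        0 < N (τ (σ (k.map fun x => x.2 ^ t).prod)) ∧
        Real.log (N (τ (σ (k.map fun x => x.2 ^ t).prod))) =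
          t * (k.map fun x => Real.log (N (τ (σ x.2)))).sum := by
      intro k
      induction k with
      | nil => intro _; simp
      | cons a k ih =>
        intro hk
        obtain ⟨i1, i2⟩ := ih fun x hx => hk x (List.mem_cons_of_mem _ hx)
        have i3 := hNpos a (hk a List.mem_cons_self)
        rw [List.map_cons, List.prod_cons, map_mul, map_mul, map_mul, List.map_cons,
          List.sum_cons, Real.log_mul _ i1.ne', i2, map_pow, map_pow, map_pow, Real.log_pow]
        · exact ⟨mul_pos (pow_pos i3 _) i1, by ring⟩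
        · rw [map_pow, map_pow, map_pow]
          exact (pow_pos i3 _).ne'
    obtain ⟨h5, h6⟩ := h4 l fun x hx => hx
    have h7 := Real.log_le_log h5 h3
    rw [h6, Real.log_pow, Real.log_inv] at h7
    have h8 : (l.map fun x => Real.log (N (τ (σ x.2)))).sum ≤ -((m : ℝ) * c * Real.log p) := by
      have htR : (0 : ℝ) < t := by exact_mod_cast ht
      rw [← mul_le_mul_iff_right₀ htR]
      refine h7.trans (le_of_eq ?_)
      push_cast
      ring
    refine le_trans (List.sum_le_sum ?_) h8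
    intro x hx
    have ha0 : σ x.2 ≠ 0 := (map_ne_zero σ).2 (root_ne_zero (hq _) (hm _) (hl x hx))
    obtain ⟨i4, i5⟩ := hτ (x.1, σ x.2) (List.mem_map.2 ⟨x, hx, rfl⟩)
    dsimp only at i4 i5
    have e0 : σ (x.2 + q x.1 / x.2) = σ x.2 + q x.1 / σ x.2 := by
      rw [map_add, map_div₀, map_natCast]
    rw [e0, hf]
    dsimp only
    split_ifs with hcase
    · -- the absorbing root
      have i6 : max (N (σ x.2)) (N ((q x.1 : L) / σ x.2)) ≤ S x.1 (σ x.2 + q x.1 / σ x.2) :=
        max_le' hN ha0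
      have hNσ : 0 < N (σ x.2) := N.pos ha0
      have hNσ' : 0 < N ((q x.1 : L) / σ x.2) :=
        N.pos (div_ne_zero (by exact_mod_cast hq x.1) ha0)
      have i7 : N (q x.1 : L) = N (σ x.2) * N ((q x.1 : L) / σ x.2) := by
        rw [← map_mul]
        congr 1
        field_simp
      have i8 := Real.log_mul hNσ.ne' hNσ'.ne'
      rw [← i7] at i8
      rcases i4 with e | e
      · rw [e]
        have i9 : Real.log (N ((q x.1 : L) / σ x.2)) ≤ Real.log (S x.1 (σ x.2 + q x.1 / σ x.2)) :=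
          Real.log_le_log hNσ' ((le_max_right _ _).trans i6)
        linarith
      · rw [e]
        have i9 : Real.log (N (σ x.2)) ≤ Real.log (S x.1 (σ x.2 + q x.1 / σ x.2)) :=
          Real.log_le_log hNσ ((le_max_left _ _).trans i6)
        linarith
    · refine Real.log_le_log (hS0 _ _) (le_trans ?_ (i5 ?_))
      · exact max_ge hN ha0
      · intro hab
        exact hcase hab
  have h3 : ∑ σ : L ≃ₐ[ℚ] L,
      (l.map fun x => f x.1 (σ (x.2 + q x.1 / x.2))).sum ≤
        (Fintype.card (L ≃ₐ[ℚ] L) : ℝ) * -((m : ℝ) * c * Real.log p) := by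
    refine (Finset.sum_le_sum fun σ _ => h2 σ).trans (le_of_eq ?_)
    rw [Finset.sum_const, nsmul_eq_mul, Finset.card_univ]
  have hG : (0 : ℝ) < Fintype.card (L ≃ₐ[ℚ] L) := by
    exact_mod_cast Fintype.card_pos
  have hmR : (0 : ℝ) < m := by exact_mod_cast hm0
  have hfsum : ∀ i, -(w i * (h i).natDegree * m * Real.log p) ≤
      (((h i).map (algebraMap ℤ L)).roots.map (f i)).sum := by
    intro i
    have hsl := hw i
    by_cases ho : o i
    · have h6 := sum_log_ge hN hp (hm i) (hs i) hsl (B := S i (ϑ i))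
        (by
          rw [← hqd i]
          exact le_max_right _ _)
        (fun θ hθ => by
          rw [← hqd i]
          exact hϑmin i θ hθ) (Or.inl (hr₀ i ho))
      rw [← hqd i] at h6
      refine h6.trans (le_of_eq ?_)
      have e1 : ((h i).map (Int.castRingHom ℚ)).map (algebraMap ℚ L) =
          (h i).map (algebraMap ℤ L) := by
        rw [Polynomial.map_map]
        congr 1
        exact RingHom.ext_int _ _
      have hHsep : ((h i).map (algebraMap ℤ L)).Separable := by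
        rw [← e1, separable_map]
        exact (hirr i).separable
      have hnd : ((h i).map (algebraMap ℤ L)).roots.Nodup :=
        (nodup_roots_iff_of_splits (hHm i).ne_zero (hs i)).2 hHsep
      have hmem : ϑ i ∈ ((h i).map (algebraMap ℤ L)).roots := (hmemH i _).2 (hϑ i)
      obtain ⟨s, hs'⟩ := Multiset.exists_cons_of_mem hmem
      rw [hs'] at hnd ⊢
      have hns : ϑ i ∉ s := (Multiset.nodup_cons.1 hnd).1
      rw [Multiset.map_cons, Multiset.sum_cons, Multiset.map_cons, Multiset.sum_cons]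
      have e2 : s.map (f i) = s.map fun θ => Real.log (max (N θ) (Real.sqrt (N (q i : L)))) := by
        refine Multiset.map_congr rfl fun x hx => ?_
        rw [hf]
        dsimp only
        rw [if_neg]
        rintro ⟨-, rfl⟩
        exact hns hx
      rw [e2, hf]
      dsimp only
      rw [if_pos ⟨ho, rfl⟩]
      ring
    · have h6 := sum_log_ge hN hp (hm i) (hs i) hsl (B := ρ i)
        (by
          rw [← hqd i])
        (fun θ hθ => by
          rw [← hqd i]
          exact le_max_right _ _) (Or.inr (by rw [← hqd i]))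
      rw [← hqd i] at h6
      have e3 : 2 * Real.log (ρ i) - Real.log (N (q i : L)) = 0 := by
        rw [hρ]
        dsimp only
        rw [Real.log_sqrt (hNq0 i).le]
        ring
      rw [e3, sub_zero] at h6
      refine h6.trans (le_of_eq ?_)
      congr 1
      refine Multiset.map_congr rfl fun x _ => ?_
      rw [hf]
      dsimp only
      rw [if_neg fun h => ho h.1]
  have h4 : ∀ x ∈ l, -((Fintype.card (L ≃ₐ[ℚ] L) : ℝ) * (w x.1 * m * Real.log p)) ≤
      ∑ σ : L ≃ₐ[ℚ] L, f x.1 (σ (x.2 + q x.1 / x.2)) := by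
    intro x hx
    have hθ := ((root_iff (hq x.1) (hm x.1) x.2).1 (hl x hx)).2
    have h5 := sum_conj (hm x.1) (hirr x.1) (hs x.1) (f x.1) _ hθ
    rw [← mul_le_mul_iff_right₀ (hg x.1), h5]
    calc ((h x.1).natDegree : ℝ) *
          -((Fintype.card (L ≃ₐ[ℚ] L) : ℝ) * (w x.1 * m * Real.log p))
        = (Fintype.card (L ≃ₐ[ℚ] L) : ℝ) *
          -(w x.1 * (h x.1).natDegree * m * Real.log p) := by ring
      _ ≤ _ := mul_le_mul_of_nonneg_left (hfsum x.1) hG.le
  have h5 : ∀ k : List (I × L), (∀ x ∈ k, x ∈ l) →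
      -((Fintype.card (L ≃ₐ[ℚ] L) : ℝ) * ((k.map fun x => w x.1).sum * m * Real.log p)) ≤
      ∑ σ : L ≃ₐ[ℚ] L, (k.map fun x => f x.1 (σ (x.2 + q x.1 / x.2))).sum := by
    intro k
    induction k with
    | nil => intro _; simp
    | cons a k ih =>
      intro hk
      have i1 := ih fun x hx => hk x (List.mem_cons_of_mem _ hx)
      have i2 := h4 a (hk a List.mem_cons_self)
      simp only [List.map_cons, List.sum_cons, Finset.sum_add_distrib]
      nlinarith
  have h6 := (h5 l fun x hx => hx).trans h3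
  have h7 : (Fintype.card (L ≃ₐ[ℚ] L) : ℝ) * m * Real.log p * c ≤
      (Fintype.card (L ≃ₐ[ℚ] L) : ℝ) * m * Real.log p * (l.map fun x => w x.1).sum := by
    nlinarith
  exact le_of_mul_le_mul_left h7 (by positivity)

end Pool.Agent.W5h58.GT
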