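import Pool.Agent.W5h58.GT.CDefs

/-!
# The coniveau filtrations of products of members of families: definitions
-/

open CategoryTheory AlgebraicGeometry Polynomial

universe u v

namespace Pool.Agent.W5h58.GT

open Pool.Agent.H914 Pool.Agent.W534 VarClass Obj WeilCohomology Pool.Agent.W458.MF

/-- `Z` is a product of factors `X i`, with any number of factors and any repetitions, and of
factors `Y`, and the sum of the weights `w i` of the factors `X i` is `M`. -/
inductive IsProductOfWeight {k : Type u} [Field k] {𝒱 : VarClass k} {I : Type} (Y : 𝒱.Obj)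
    (X : I → 𝒱.Obj) (w : I → ℝ) : 𝒱.Obj → ℝ → Prop
  | base : IsProductOfWeight Y X w Y 0
  | member (i : I) : IsProductOfWeight Y X w (X i) (w i)
  | prod {Z Z' : 𝒱.Obj} {a b : ℝ} : IsProductOfWeight Y X w Z a → IsProductOfWeight Y X w Z' b →
      IsProductOfWeight Y X w (Z.prod Z') (a + b)

/-- The average of the smaller slopes of the pairs `α, q / α` of roots of the polynomial
`x ^ g * h (x + q / x)` is at most `w`, where `q = p ^ (dim m)`, `h = pol`, and the slopes are the
`p`-adic valuations divided by the valuation of `p ^ m`: for some `r` the coefficient `c r` of `h` is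
not zero, and `2 v (c r) + r dim m ≤ 2 w g m`, where `v` is the `p`-adic valuation. (The minimum over
`r` of the numbers `2 v (c r) + r dim m` is twice the sum of the smaller valuations, because the
roots of `h` are the numbers `α + q / α`.) If `e = 0` and the dimension is even, then it is required
in addition that `2 ≤ r`; if at least two of the pairs have the slopes `dim / 2, dim / 2`, then this
is no restriction. -/
def SlopeAtMost {k : Type u} [Field k] {𝒱 : VarClass k} {ops : CycleOps 𝒱}
    {W : WeilCohomology.{u, v} ops} {Y : 𝒱.Obj} (P : Piece W Y) (p m e : ℕ) (w : ℝ) : Prop :=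
  ∃ r : ℕ, (e = 0 → Even P.obj.dim → 2 ≤ r) ∧ P.pol.coeff r ≠ 0 ∧
    2 * (padicValInt p (P.pol.coeff r) : ℝ) + r * (P.obj.dim * m) ≤ 2 * w * P.pol.natDegree * m

/-- The average of the smaller slopes of the member is at most `w`; and if `e ≠ 0`, then the
eigenvectors of the Frobenius endomorphism `fr` in `sub` for the eigenvalues `± p ^ (m dim / 2)` are
linear combinations of algebraic classes (a case of the Tate conjecture). -/
structure IsAdmissible {k : Type u} [Field k] {𝒱 : VarClass k} {ops : CycleOps 𝒱}
    {W : WeilCohomology.{u, v} ops} {Y : 𝒱.Obj} (P : Piece W Y) (p m e : ℕ) (w : ℝ) : Prop where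
  slope : SlopeAtMost P p m e w
  tate : e ≠ 0 → Pol.RootsIn (W.map P.fr).toLinearMap P.sub ((p : W.K) ^ (P.obj.dim * m))
    (Pool.Agent.H281R3.HT.algSpan W P.obj)

end Pool.Agent.W5h58.GT
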