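import Pool.Agent.W458.MF.Gen7
import Pool.Agent.W338.MF.NT
import Pool.Agent.W5h58.GT.Fix

/-!
# Almost all tuples of members have all sign changes
-/

set_option autoImplicit false

open CategoryTheory AlgebraicGeometry Polynomial NumberField

universe u v

namespace Pool.Agent.W5h58.GT

open Pool.Agent.H914 Pool.Agent.W534 Pool.Agent.W521.Frob Pool.Agent.W521.Criterion VarClass Obj
  WeilCohomology Pool.Agent.W458.MF Pool.Agent.W338.MF Pool.Agent.W928.MF

variable {k : Type u} [Field k] {𝒱 : VarClass k} {ops : CycleOps 𝒱}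
  {W : WeilCohomology.{u, v} ops} {Y : 𝒱.Obj} {p : ℕ} {Φ : FrobSystem W p}

/-- The polynomials are irreducible and the Galois group contains all sign changes, for the indices
with `o` all double sign changes. -/
def HasFlips {I : Type} (o : I → Prop) (q : I → ℕ) (h : I → ℤ[X]) (R : ℤ[X]) : Prop :=
  (∀ i, Irreducible ((h i).map (Int.castRingHom ℚ))) ∧
  ∃ (L : Type) (_ : Field L) (_ : NumberField L) (_ : IsGalois ℚ L) (j : L →+* ℂ),
    (∀ i, ∀ z : ℂ, aeval z (weil (q i) (h i)) = 0 → ∃ x : L, j x = z) ∧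
    (∀ i, ((h i).map (algebraMap ℤ L)).Splits) ∧
    (∀ i, ¬ o i → ∀ α : L, aeval α (weil (q i) (h i)) = 0 → Flp q h R i α) ∧
    ∀ i, o i → ∀ θ θ' : L, aeval θ (h i) = 0 → aeval θ' (h i) = 0 → θ ≠ θ' → Edg q h R i θ θ'

theorem hasFlips (hF : St_FLIP) (hF2 : St_FLIP2) {I : Type} [Finite I] (o : I → Prop)
    (q : I → ℕ) (h : I → ℤ[X]) (R : ℤ[X])
    (N : ℕ) (hq : ∀ i, 0 < q i) (hm : ∀ i, (h i).Monic) (hR : R.Monic)
    (hirr0 : ∀ i, ∃ l : ℕ, l.Prime ∧
      (h i).map (Int.castRingHom (ZMod l)) ∈ irrSet (h i).natDegree l)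
    (hflip : ∀ i₀, ¬ o i₀ → ∃ l : ℕ, l.Prime ∧ l ≠ 2 ∧ (∀ i, ¬ l ∣ q i) ∧ SplitsMod R l ∧
      (h i₀).map (Int.castRingHom (ZMod l)) ∈ flipSet (h i₀).natDegree N l (q i₀) ∧
      ∀ i, i ≠ i₀ → (h i).map (Int.castRingHom (ZMod l)) ∈ splitSet (h i).natDegree l (q i))
    (hflip2 : ∀ i₀, o i₀ → 3 ≤ (h i₀).natDegree ∧
      (∃ l : ℕ, l.Prime ∧ (h i₀).map (Int.castRingHom (ZMod l)) ∈ fixSet (h i₀).natDegree l) ∧
      ∃ l : ℕ, l.Prime ∧ l ≠ 2 ∧ (∀ i, ¬ l ∣ q i) ∧ SplitsMod R l ∧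
        (h i₀).map (Int.castRingHom (ZMod l)) ∈ flip2Set (h i₀).natDegree N l (q i₀) ∧
        ∀ i, i ≠ i₀ → (h i).map (Int.castRingHom (ZMod l)) ∈ splitSet (h i).natDegree l (q i)) :
    HasFlips o q h R := by
  classical
  have hq' : ∀ i, q i ≠ 0 := fun i => (hq i).ne'
  have hirr : ∀ i, Irreducible ((h i).map (Int.castRingHom ℚ)) := by
    intro i
    obtain ⟨l, hl, h1, h2, h3⟩ := hirr0 i
    have : Fact l.Prime := ⟨hl⟩
    have h4 : Irreducible (h i) :=
      Monic.irreducible_of_irreducible_map (Int.castRingHom (ZMod l)) (h i) (hm i) h3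
    exact (IsPrimitive.Int.irreducible_iff_irreducible_map_cast (hm i).isPrimitive).1 h4
  refine ⟨hirr, ?_⟩
  cases nonempty_fintype I
  have hPm : ((∏ i, weil (q i) (h i)) * R).Monic :=
    (monic_prod_of_monic _ _ fun i _ => weil_monic (q i) (hm i)).mul hR
  obtain ⟨L, i1, i2, i3, j, hj⟩ := exists_field' _ hPm
  have hL : ∀ i, ∀ z : ℂ, aeval z (weil (q i) (h i)) = 0 → ∃ x : L, j x = z := by
    intro i z hz
    apply hj
    rw [map_mul, map_prod, Finset.prod_eq_zero (Finset.mem_univ i) hz, zero_mul]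
  have hsp : ∀ i, ((h i).map (algebraMap ℤ L)).Splits := fun i =>
    splits_h (I := Unit) (hq' i) (fun _ => hm i) L j (fun _ => hL i) ()
  have hqd : ∀ i, ∀ θ : L, aeval θ (h i) = 0 → ∃ α : L, α ^ 2 + (q i : L) = θ * α := fun i =>
    quad_L (I := Unit) (hq' i) (fun _ => hm i) L j (fun _ => hL i) ()
  refine ⟨L, i1, i2, i3, j, hL, hsp, fun i ho α hα => ?_, fun i ho θ θ' hθ hθ' hne => ?_⟩
  · obtain ⟨l, hl, hl2, hlq, hlR, hfl, hspl⟩ := hflip i ho
    obtain ⟨T, t₀, hTc, ht₀, hT, hns, hlu, hsq⟩ := hfl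
    obtain ⟨σ, α₀, a1, a2, a3, a4, a5, a6, a7⟩ := hF q h R (luc (q i) N) hm hR L i (hsp i) (hqd i)
      l hl hl2 hlq hlR hspl ⟨T, t₀, ht₀, hT, hns, hlu, hsq⟩
    have hfl0 : Flp q h R i α₀ := ⟨σ, a2, a3, a5, a6, a7⟩
    exact flp_conj hq' hm L j hL i (hirr i) α₀ a1 hfl0 α hα
  · obtain ⟨hdeg, ⟨l', hl', hfix⟩, l, hl, hl2, hlq, hlR, hfl, hspl⟩ := hflip2 i ho
    obtain ⟨T, t₀, t₁, hTc, ht₀, ht₁, hne01, hT, hns0, hns1, hlu, hsq⟩ := hfl
    obtain ⟨σ, θ₀, θ₁, a1, a2, a3, a4, a5, a6, a7, a8⟩ := hF2 q h R (luc (q i) N) hm hR L i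
      (hsp i) (hqd i) l hl hl2 hlq hlR hspl ⟨T, t₀, t₁, ht₀, ht₁, hne01, hT, hns0, hns1, hlu, hsq⟩
    have hE : Edg q h R i θ₀ θ₁ := ⟨σ, a5, a6, a7, a8⟩
    obtain ⟨ϑ, b1, b2⟩ := fix_trans (h i) (hm i) hdeg L (hsp i) l' hl' hfix
    exact all_edges hm L i (hirr i) θ₀ θ₁ a1 a2 a3 hE ϑ b1 b2 θ θ' hθ hθ' hne

lemma mdata_o (hD : St_DENS) (hO : St_ODENS) (hE : St_EDENS) {F : Family W Y}
    {d n g e l₀ : ℕ} {δ : ℤˣ} {D : ℤ[X]} {π : ∀ m l : ℕ, Set (ZMod l)[X] → ℝ}
    (h : Fam.HasLaw F Φ d n g e l₀ δ D π) : ∃ o : Prop,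
    (o → e = 0 ∧ Even d) ∧ MData2 F Φ o d n g e l₀ δ D π := by
  have hnat : ∀ m, (δ * (p : ℤ) ^ (n * m) : ℤ).natAbs = p ^ (n * m) := by
    intro m
    rcases unit_sq δ ((p : ℤ) ^ (n * m)) with h | h <;> rw [h]
    · rw [Int.natAbs_pow, Int.natAbs_natCast]
    · rw [Int.natAbs_neg, Int.natAbs_pow, Int.natAbs_natCast]
  rcases h.law with ⟨he, hπ⟩ | ⟨he, hd, hg3, κ, hπ⟩ | ⟨he, hd, hg3, α, κ, hπ⟩
  · refine ⟨False, False.elim, {
      isMember := h.isMember
      dim := h.dim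
      degree := h.degree
      rank := False.elim
      even := fun h => absurd he h
      monic := h.monic
      separable := h.separable
      equi := fun l hl l' hl' hll => h.equidistributed l l' hl.1 hl'.1 hl.2.1 hl'.2.1 hll
        hl.2.2 hl'.2.2
      nonneg := fun l _ m E => by rw [hπ]; exact law_nonneg _
      le_one := fun l hl m E => by rw [hπ]; exact law_le_one hl _
      mono := fun l hl m E E' hh => by rw [hπ]; exact law_mono hl hh
      dens := ?_ }⟩
    intro hg N hN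
    obtain ⟨c, hc, l₁, h1⟩ := hD g N hg hN
    refine ⟨c, hc, l₁, fun l hl hll hlp m => ?_⟩
    have h2 := h1 l hl hll (p ^ (d * m)) fun h => hlp (hl.dvd_of_dvd_pow h)
    simp only [hπ, law_symp]
    exact ⟨h2.2.2, h2.2.1, fun _ => h2.1, fun h => h.elim⟩
  · refine ⟨True, fun _ => ⟨he, by rw [hd]; exact even_two_mul n⟩, {
      isMember := h.isMember
      dim := h.dim
      degree := h.degree
      rank := fun _ => hg3
      even := fun h => absurd he h
      monic := h.monic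
      separable := h.separable
      equi := fun l hl l' hl' hll => h.equidistributed l l' hl.1 hl'.1 hl.2.1 hl'.2.1 hll
        hl.2.2 hl'.2.2
      nonneg := fun l _ m E => by rw [hπ]; exact law_nonneg _
      le_one := fun l hl m E => by rw [hπ]; exact law_le_one hl _
      mono := fun l hl m E E' hh => by rw [hπ]; exact law_mono hl hh
      dens := ?_ }⟩
    intro _ N hN
    obtain ⟨c, hc, l₁, h1⟩ := hO g N hg3 hN
    refine ⟨c, hc, l₁, fun l hl hll hlp m => ?_⟩
    have h2 := h1 l hl hll (p ^ (n * m)) (fun h => hlp (hl.dvd_of_dvd_pow h)) (κ m l)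
    have e : (p ^ (n * m)) ^ 2 = p ^ (d * m) := by
      rw [← pow_mul, hd]
      congr 1
      ring
    simp only [hπ, law_orth]
    rw [e] at h2
    exact ⟨h2.2.2.1, h2.2.1, fun h => (h trivial).elim, fun _ => ⟨h2.1, h2.2.2.2⟩⟩
  · refine ⟨False, False.elim, {
      isMember := h.isMember
      dim := h.dim
      degree := h.degree
      rank := False.elim
      even := fun _ => ⟨hd, he⟩
      monic := h.monic
      separable := h.separable
      equi := fun l hl l' hl' hll => h.equidistributed l l' hl.1 hl'.1 hl.2.1 hl'.2.1 hll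
        hl.2.2 hl'.2.2
      nonneg := fun l _ m E => by rw [hπ]; exact law_nonneg _
      le_one := fun l hl m E => by rw [hπ]; exact law_le_one hl _
      mono := fun l hl m E E' hh => by rw [hπ]; exact law_mono hl hh
      dens := ?_ }⟩
    intro _ N hN
    obtain ⟨c, hc, l₁, h1⟩ := hE g N hg3 hN
    refine ⟨c, hc, l₁, fun l hl hll hlp m => ?_⟩
    have hlr : ¬ (l : ℤ) ∣ (δ * (p : ℤ) ^ (n * m) : ℤ) := by
      intro hdvd
      rw [Int.natCast_dvd, hnat] at hdvd
      exact hlp (hl.dvd_of_dvd_pow hdvd)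
    have h2 := h1 l hl hll _ hlr e he (α m l) (κ m l)
    have e' : (δ * (p : ℤ) ^ (n * m) : ℤ).natAbs ^ 2 = p ^ (d * m) := by
      rw [hnat, ← pow_mul, hd]
      congr 1
      ring
    rw [e'] at h2
    simp only [hπ, law_ext]
    exact ⟨h2.2.2, h2.2.1, fun _ => h2.1, fun h => h.elim⟩


theorem setup_flip [IsAlgClosed W.K] (hS : St_SIEVE) (hD : St_DENS) (hO : St_ODENS) (hE : St_EDENS) (hSPL : St_SPL)
    (hUNI : St_UNI) (hNT : St_NT2) (hFL : St_FLIP) (hFL2 : St_FLIP2) (σ : W.K →+* ℂ) (hp : p.Prime)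
    (hint : ∀ μ : W.K, Module.End.HasEigenvalue (W.map (Φ.Fr Y)).toLinearMap μ → IsIntegral ℤ μ)
    {I : Type} [Fintype I] (F : I → Family W Y) (d n g e l₀ : I → ℕ) (δ : I → ℤˣ)
    (D : I → ℤ[X]) (π : I → ∀ m l : ℕ, Set (ZMod l)[X] → ℝ)
    (hF : ∀ i, Fam.HasLaw (F i) Φ (d i) (n i) (g i) (e i) (l₀ i) (δ i) (D i) (π i)) (ε : ℝ)
    (hε : 0 < ε) :
    ∃ (R : ℤ[X]) (m₀ : ℕ), ∀ m ≥ m₀, ({s : ∀ i, (F i).S m |
        ¬ (GSetup Φ σ (fun i => (F i).member m (s i)) m R ∧ ∃ o : I → Prop,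
          (∀ i, o i → e i = 0 ∧ Even (d i)) ∧
          HasFlips o (fun i => p ^ (d i * m)) (fun i => ((F i).member m (s i)).pol) R)}.ncard :
            ℝ) ≤
      ε * ∏ i, (Nat.card ((F i).S m) : ℝ) := by
  classical
  choose o ho hM using fun i => mdata_o hD hO hE (hF i)
  obtain ⟨R, hRm, hRs, hR'⟩ := exists_R
    ((Module.End.finite_hasEigenvalue (W.map (Φ.Fr Y)).toLinearMap).union
      (Set.finite_singleton (p : W.K))) (by
        rintro x (hx | hx)
        · exact hint x hx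
        · rw [Set.mem_singleton_iff.1 hx, ← map_natCast (algebraMap ℤ W.K) p]
          exact isIntegral_algebraMap)
  have hR : ∀ μ : W.K, Module.End.HasEigenvalue (W.map (Φ.Fr Y)).toLinearMap μ →
      aeval μ R = 0 := fun μ hμ => hR' μ (Or.inl hμ)
  have hRp : aeval (p : ℂ) R = 0 := by
    have h := aeval_sigma σ (hR' _ (Or.inr rfl))
    rwa [map_natCast] at h
  obtain ⟨N, hN, hNz⟩ := hUNI (2 * ∑ i, g i)
  refine ⟨R, ?_⟩
  have hempty : ∀ m, (∃ i, IsEmpty ((F i).S m)) → ∀ B : Set (∀ i, (F i).S m),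
      (B.ncard : ℝ) ≤ ε * ∏ i, (Nat.card ((F i).S m) : ℝ) := by
    rintro m ⟨i, hi⟩ B
    have : IsEmpty (∀ i, (F i).S m) := ⟨fun s => hi.false (s i)⟩
    rw [Set.eq_empty_of_isEmpty B, Set.ncard_empty, Nat.cast_zero]
    positivity
  by_cases hg : ∀ i, 0 < g i
  swap
  · push Not at hg
    obtain ⟨i, hi⟩ := hg
    refine ⟨1, fun m hm => hempty m ⟨i, ⟨fun s => ?_⟩⟩ _⟩
    have h1 := ((hM i).isMember m hm s).degree_pos
    rw [(hM i).degree m s] at h1
    omega
  choose c hc l₁ hl₁ using fun i => (hM i).dens (hg i) N hN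
  obtain ⟨c₀, hc₀, hc₀c⟩ : ∃ c₀ : ℝ, 0 < c₀ ∧ ∀ i, c₀ ≤ c i := by
    rcases isEmpty_or_nonempty I with hI | hI
    · exact ⟨1, one_pos, fun i => hI.elim i⟩
    · obtain ⟨i, hi⟩ := Finite.exists_min c
      exact ⟨c i, hc i, hi⟩
  set L : ℕ := p + 3 + ∑ i, (l₀ i + l₁ i) with hL
  have hLi : ∀ i, l₀ i + l₁ i ≤ L := fun i => by
    have := Finset.single_le_sum (f := fun i => l₀ i + l₁ i) (fun j _ => Nat.zero_le _)
      (Finset.mem_univ i)
    omega
  -- the primes
  obtain ⟨A, hA, hAs, hAd⟩ := exists_common (I := Option I)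
    (fun x => match x with | none => R | some i => D i)
    (fun x => match x with | none => hRm | some i => (hM i).monic)
    (fun x => match x with | none => hRs | some i => (hM i).separable)
  have hAR : R ∣ A := hAd none
  have hAD : ∀ i, D i ∣ A := fun i => hAd (some i)
  set G : Set ℕ := {l : ℕ | l.Prime ∧ SplitsMod A l} \ {l | l ≤ L} with hG
  have hinf : G.Infinite := (hSPL A hA hAs).sdiff (Set.finite_le_nat L)
  have hGp : ∀ l ∈ G, l.Prime ∧ SplitsMod A l ∧ L < l := fun l hl =>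
    ⟨hl.1.1, hl.1.2, not_le.1 hl.2⟩
  have hGD : ∀ i, ∀ l ∈ G, l ∈ {l | l.Prime ∧ l₀ i ≤ l ∧ SplitsMod (D i) l} := by
    intro i l hl
    obtain ⟨h1, h2, h3⟩ := hGp l hl
    have h4 := hLi i
    exact ⟨h1, by omega, splitsMod_of_dvd (hM i).monic (hAD i) h1 h2⟩
  have hGlp : ∀ l ∈ G, ¬ l ∣ p := by
    intro l hl h
    have h1 := (hGp l hl).2.2
    have h3 := Nat.le_of_dvd hp.pos h
    omega
  have hdens : ∀ i, ∀ l ∈ G, ∀ m : ℕ, c₀ ≤ π i m l (irrSet (g i) l) ∧
      c₀ ≤ π i m l (splitSet (g i) l (p ^ (d i * m))) ∧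
      (¬ o i → c₀ ≤ π i m l (flipSet (g i) N l (p ^ (d i * m)))) ∧
      (o i → c₀ ≤ π i m l (flip2Set (g i) N l (p ^ (d i * m))) ∧
        c₀ ≤ π i m l (fixSet (g i) l)) := by
    intro i l hl m
    have h4 := hLi i
    have h3 := (hGp l hl).2.2
    obtain ⟨h5, h6, h7, h8⟩ := hl₁ i l (hGp l hl).1 (by omega) (hGlp l hl) m
    have h9 := hc₀c i
    exact ⟨h9.trans h5, h9.trans h6, fun h => h9.trans (h7 h),
      fun h => ⟨h9.trans (h8 h).1, h9.trans (h8 h).2⟩⟩
  have hE : ∀ (κ : I × Fin 3) i, ∀ l ∈ G, ∀ m, c₀ ≤ π i m l (evts o d g N p κ i m l) := by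
    rintro ⟨i₀, e⟩ i l hl m
    obtain ⟨h1, h2, h3, h4⟩ := hdens i l hl m
    have huniv : c₀ ≤ π i m l Set.univ :=
      h1.trans ((hM i).mono l (hGp l hl).1 m _ _ (Set.subset_univ _))
    unfold evts
    fin_cases e
    · dsimp only
      split_ifs
      · exact h1
      · exact huniv
    · dsimp only
      split_ifs with hi ho
      · exact (h4 ho).1
      · exact h3 ho
      · exact h2
    · dsimp only
      split_ifs with hi
      · exact (h4 hi.2).2
      · exact huniv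
  obtain ⟨m₀, h⟩ := almost_all_gen hS (K := I × Fin 3) F G hinf π
    (fun i l hl l' hl' hll => (hM i).equi l (hGD i l hl) l' (hGD i l' hl') hll)
    (fun i l hl m E => (hM i).nonneg l (hGp l hl).1 m E)
    (fun i l hl m E => (hM i).le_one l (hGp l hl).1 m E)
    (evts o d g N p) hc₀ hE ε hε
  refine ⟨m₀ + 1, fun m hm => le_trans ?_ (h m (by omega))⟩
  have hm0 : 0 < m := by omega
  refine Nat.cast_le.2 (Set.ncard_le_ncard ?_ (Set.toFinite _))
  intro s hs hpat
  apply hs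
  have hO : ∀ i, Fam.IsMember ((F i).member m (s i)) Φ m (n i) (e i) (δ i) :=
    fun i => (hM i).isMember m hm0 (s i)
  have hdeg : ∀ i, ((F i).member m (s i)).pol.natDegree = g i := fun i => (hM i).degree m (s i)
  have hdim : ∀ i, ((F i).member m (s i)).obj.dim = d i := fun i => (hM i).dim m (s i)
  have hirr0 : ∀ i, ∃ l : ℕ, l.Prime ∧ ((F i).member m (s i)).pol.map
      (Int.castRingHom (ZMod l)) ∈ irrSet ((F i).member m (s i)).pol.natDegree l := by
    intro i
    obtain ⟨l, hl, h1⟩ := hpat (i, 0)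
    have h2 := h1 i
    unfold evts at h2
    dsimp only at h2
    rw [if_pos rfl] at h2
    exact ⟨l, (hGp l hl).1, by rw [hdeg i]; exact h2⟩
  have hflip : ∀ i₀, ¬ o i₀ → ∃ l : ℕ, l.Prime ∧ l ≠ 2 ∧ (∀ i, ¬ l ∣ p ^ (d i * m)) ∧
      SplitsMod R l ∧ ((F i₀).member m (s i₀)).pol.map (Int.castRingHom (ZMod l)) ∈
        flipSet ((F i₀).member m (s i₀)).pol.natDegree N l (p ^ (d i₀ * m)) ∧
      ∀ i, i ≠ i₀ → ((F i).member m (s i)).pol.map (Int.castRingHom (ZMod l)) ∈
        splitSet ((F i).member m (s i)).pol.natDegree l (p ^ (d i * m)) := by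
    intro i₀ ho
    obtain ⟨l, hl, h1⟩ := hpat (i₀, 1)
    have h3 := hGp l hl
    refine ⟨l, h3.1, by omega, fun i h => hGlp l hl (h3.1.dvd_of_dvd_pow h),
      splitsMod_of_dvd hRm hAR h3.1 h3.2.1, ?_, fun i hi => ?_⟩
    · have h2 := h1 i₀
      unfold evts at h2
      dsimp only at h2
      rw [if_pos rfl, if_neg ho] at h2
      rw [hdeg i₀]
      exact h2
    · have h2 := h1 i
      unfold evts at h2
      dsimp only at h2
      rw [if_neg hi] at h2
      rw [hdeg i]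
      exact h2
  have hflip2 : ∀ i₀, o i₀ → 3 ≤ ((F i₀).member m (s i₀)).pol.natDegree ∧
      (∃ l : ℕ, l.Prime ∧ ((F i₀).member m (s i₀)).pol.map (Int.castRingHom (ZMod l)) ∈
        fixSet ((F i₀).member m (s i₀)).pol.natDegree l) ∧
      ∃ l : ℕ, l.Prime ∧ l ≠ 2 ∧ (∀ i, ¬ l ∣ p ^ (d i * m)) ∧ SplitsMod R l ∧
        ((F i₀).member m (s i₀)).pol.map (Int.castRingHom (ZMod l)) ∈
          flip2Set ((F i₀).member m (s i₀)).pol.natDegree N l (p ^ (d i₀ * m)) ∧
        ∀ i, i ≠ i₀ → ((F i).member m (s i)).pol.map (Int.castRingHom (ZMod l)) ∈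
          splitSet ((F i).member m (s i)).pol.natDegree l (p ^ (d i * m)) := by
      intro i₀ ho
      refine ⟨by rw [hdeg i₀]; exact (hM i₀).rank ho, ?_, ?_⟩
      · obtain ⟨l, hl, h1⟩ := hpat (i₀, 2)
        have h2 := h1 i₀
        unfold evts at h2
        dsimp only at h2
        rw [if_pos ⟨rfl, ho⟩] at h2
        exact ⟨l, (hGp l hl).1, by rw [hdeg i₀]; exact h2⟩
      · obtain ⟨l, hl, h1⟩ := hpat (i₀, 1)
        have h3 := hGp l hl
        refine ⟨l, h3.1, by omega, fun i h => hGlp l hl (h3.1.dvd_of_dvd_pow h),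
          splitsMod_of_dvd hRm hAR h3.1 h3.2.1, ?_, fun i hi => ?_⟩
        · have h2 := h1 i₀
          unfold evts at h2
          dsimp only at h2
          rw [if_pos rfl, if_pos ho] at h2
          rw [hdeg i₀]
          exact h2
        · have h2 := h1 i
          unfold evts at h2
          dsimp only at h2
          rw [if_neg hi] at h2
          rw [hdeg i]
          exact h2
  have hnt := hNT o (fun i => p ^ (d i * m)) (fun i => ((F i).member m (s i)).pol) R N hN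
    (fun i => pow_pos hp.pos _) (fun i => (hO i).monic) (fun i => (hO i).degree_pos) hRm (by
      rintro i z ht ⟨P, hP0, hPd, hPz⟩
      refine hNz z ht ⟨P, hP0, hPd.trans ?_, hPz⟩
      rw [hdeg i]
      exact Nat.mul_le_mul_left 2 (Finset.single_le_sum (fun j _ => Nat.zero_le _)
        (Finset.mem_univ i))) hirr0 hflip hflip2
  have hfl := hasFlips hFL hFL2 o (fun i => p ^ (d i * m))
    (fun i => ((F i).member m (s i)).pol) R N
    (fun i => pow_pos hp.pos _) (fun i => (hO i).monic) hRm hirr0 hflip hflip2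
  have hQ : ∀ i, ((F i).member m (s i)).Q p m = p ^ (d i * m) := by
    intro i
    rw [Piece.Q, hdim i]
  have hbal : Balanced (fun i => ((F i).member m (s i)).Q p m)
      (fun i => ((F i).member m (s i)).pol) R := by
    have e' : (fun i => ((F i).member m (s i)).Q p m) = fun i => p ^ (d i * m) := funext hQ
    rw [e']
    exact hnt.1
  have hsep : ∀ i, ((weil (((F i).member m (s i)).Q p m) ((F i).member m (s i)).pol).map
      (Int.castRingHom ℚ)).Separable := by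
    intro i
    rw [hQ i]
    exact hnt.2 i
  have hQp : ∀ i, 0 < ((F i).member m (s i)).Q p m := fun i => by
    rw [hQ i]
    exact pow_pos hp.pos _
  have hno : ∀ i, ∀ lam : W.K, aeval lam (weil (((F i).member m (s i)).Q p m)
      ((F i).member m (s i)).pol) = 0 → lam ^ 2 ≠ (((F i).member m (s i)).Q p m : W.K) := by
    intro i lam hl h
    refine _root_.Pool.Agent.W458.MF.G.sep_nat hQp (fun i => (hO i).monic) hbal hsep i two_pos (aeval_sigma σ hl) (hQp i) ?_
    rw [← map_pow, h, map_natCast]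
  have heven : ∀ i, e i ≠ 0 → ((F i).member m (s i)).obj.dim = 2 * n i ∧
      (e i = 1 ∨ e i = 2) := fun i he => by
    rw [hdim i]
    exact (hM i).even he
  exact ⟨{
    hp := hp.one_lt
    hm := hm0
    frob := fun i => (hO i).frobenius
    sub_le := fun i => (hO i).sub_le
    gen := fun i => (hO i).generated
    monic := fun i => (hO i).monic
    span := fun i => member_span hp.one_lt (hO i) (heven i) (hsep i) (hno i)
    uniq := fun i lam x y hx hy => member_uniq hp.one_lt (hO i) (heven i) (hsep i) (hno i) lam x y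
      hx.mem hy.mem hx.eig hy.eig hx.ne
    hR := hR
    hRp := hRp
    bal := hbal
    sep := hsep }, o, ho, hfl⟩


end Pool.Agent.W5h58.GT
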