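import Pool.Agent.W458.MF.Geo9
import Pool.Agent.W5h58.GT.Avg
import Pool.Agent.W5h58.GT.Setup
import Pool.Agent.W5h58.GT.GDefs

/-!
# The cohomology of products of members is spanned by standard classes
-/

set_option autoImplicit false

open CategoryTheory AlgebraicGeometry Polynomial NumberField

universe u v w

namespace Pool.Agent.W5h58.GT

open Pool.Agent.H914 Pool.Agent.W534 Pool.Agent.W521.Frob VarClass Obj WeilCohomology
  Pool.Agent.H281R3.HT Pool.Agent.W536.RR Pool.Agent.W458.MF Pool.Agent.W458.MF.G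

section NT

/-- **Integrality and slopes** for roots in a field embedded in the complex numbers. -/
theorem weight_leK {I : Type} {h : I → ℤ[X]} {R : ℤ[X]} {p m : ℕ} (hp : p.Prime)
    (hm0 : 0 < m) (d : I → ℕ) (hm : ∀ i, (h i).Monic)
    (o : I → Prop) (hF : HasFlips o (fun i => p ^ (d i * m)) h R)
    (w : I → ℝ) (r₀ : I → ℕ) (hr₀ : ∀ i, o i → r₀ i = 2)
    (hw : ∀ i, Slope p (d i * m) (h i) (w i) m (r₀ i))
    {K : Type*} [Field K] [CharZero K] (σ : K →+* ℂ)
    (l : List (I × K)) (hl : ∀ x ∈ l, aeval x.2 (weil (p ^ (d x.1 * m)) (h x.1)) = 0)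
    (hno : ∀ x ∈ l, (x.1, ((p ^ (d x.1 * m) : ℕ) : K) / x.2) ∉ l) (t : ℕ) (ht : 0 < t) (c : ℕ)
    (hint : IsIntegral ℤ ((l.map fun x => x.2 ^ t).prod / (p : K) ^ (m * t * c))) :
    (c : ℝ) ≤ (l.map fun x => w x.1).sum := by
  classical
  obtain ⟨hirr, L, _, _, _, j, hL, hs, key, key2⟩ := hF
  obtain ⟨l', hl', hr⟩ : ∃ l' : List (I × L), l'.map (Prod.map id j) = l.map (Prod.map id σ) ∧
      ∀ x ∈ l', aeval x.2 (weil (p ^ (d x.1 * m)) (h x.1)) = 0 := by
    clear hint hno
    induction l with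
    | nil => exact ⟨[], rfl, by simp⟩
    | cons a T ih =>
      obtain ⟨T', h1, h2⟩ := ih fun z hz => hl z (List.mem_cons_of_mem a hz)
      have h3 := aeval_sigma σ (hl a List.mem_cons_self)
      obtain ⟨x, hx⟩ := hL a.1 _ h3
      refine ⟨(a.1, x) :: T', ?_, ?_⟩
      · rw [List.map_cons, h1, List.map_cons]
        congr 1
        exact Prod.ext rfl hx
      · intro y hy
        rcases List.mem_cons.1 hy with e | e
        · rw [e]
          exact W338.MF.aeval_down j _ x (by rw [hx]; exact h3)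
        · exact h2 y e
  have hjinj : Function.Injective (Prod.map id j : I × L → I × ℂ) :=
    Function.Injective.prodMap Function.injective_id j.injective
  have hσinj : Function.Injective (Prod.map id σ : I × K → I × ℂ) :=
    Function.Injective.prodMap Function.injective_id σ.injective
  have hno' : ∀ x ∈ l', (x.1, ((p ^ (d x.1 * m) : ℕ) : L) / x.2) ∉ l' := by
    intro x hx hc
    have h1 : Prod.map id j x ∈ l.map (Prod.map id σ) := by
      rw [← hl']; exact List.mem_map_of_mem hx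
    obtain ⟨y, hy, hyx⟩ := List.mem_map.1 h1
    have e1 : y.1 = x.1 := (Prod.ext_iff.1 hyx).1
    have e2 : σ y.2 = j x.2 := (Prod.ext_iff.1 hyx).2
    apply hno y hy
    have h2 : Prod.map id j (x.1, ((p ^ (d x.1 * m) : ℕ) : L) / x.2) ∈ l.map (Prod.map id σ) := by
      rw [← hl']; exact List.mem_map_of_mem hc
    obtain ⟨z, hz, hzx⟩ := List.mem_map.1 h2
    have e3 : z.1 = x.1 := (Prod.ext_iff.1 hzx).1
    have e4 : σ z.2 = j (((p ^ (d x.1 * m) : ℕ) : L) / x.2) := (Prod.ext_iff.1 hzx).2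
    have e5 : z = (y.1, ((p ^ (d y.1 * m) : ℕ) : K) / y.2) := by
      refine Prod.ext (e3.trans e1.symm) (σ.injective ?_)
      change σ z.2 = σ (((p ^ (d y.1 * m) : ℕ) : K) / y.2)
      rw [e4, map_div₀, map_natCast, map_div₀, map_natCast, e2, e1]
    rw [← e5]
    exact hz
  have hprod : ∀ (k : List (I × L)) (k' : List (I × K)),
      k.map (Prod.map id j) = k'.map (Prod.map id σ) →
      j (k.map fun x => x.2 ^ t).prod = σ (k'.map fun x => x.2 ^ t).prod ∧
      (k.map fun x => w x.1).sum = (k'.map fun x => w x.1).sum := by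
    intro k
    induction k with
    | nil =>
      intro k' hk
      have : k' = [] := by
        rw [List.map_nil] at hk
        exact List.map_eq_nil_iff.1 hk.symm
      subst this
      simp
    | cons a k ih =>
      intro k' hk
      cases k' with
      | nil => simp at hk
      | cons b k' =>
        rw [List.map_cons, List.map_cons, List.cons.injEq] at hk
        obtain ⟨h1, h2⟩ := hk
        obtain ⟨i1, i2⟩ := ih k' h2
        have e1 : a.1 = b.1 := (Prod.ext_iff.1 h1).1
        have e2 : j a.2 = σ b.2 := (Prod.ext_iff.1 h1).2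
        rw [List.map_cons, List.map_cons, List.prod_cons, List.prod_cons, map_mul, map_mul, i1,
          map_pow, map_pow, e2, List.map_cons, List.map_cons, List.sum_cons, List.sum_cons, i2, e1]
        exact ⟨rfl, rfl⟩
  obtain ⟨h1, h2⟩ := hprod l' l hl'
  rw [← h2]
  refine weight_le hp hm0 d (fun i => rfl) hm hirr hs o key key2 w r₀ hr₀ hw l' hr hno' t ht c ?_
  have h3 : IsIntegral ℤ (j ((l'.map fun x => x.2 ^ t).prod / (p : L) ^ (m * t * c))) := by
    rw [map_div₀, h1, map_pow, map_natCast, ← map_natCast σ p, ← map_pow, ← map_div₀]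
    exact hint.map σ.toIntAlgHom
  exact (isIntegral_algHom_iff j.toIntAlgHom j.injective).1 h3

lemma slope_nonneg {p dm m r₀ : ℕ} {h : ℤ[X]} {w : ℝ} (hm0 : 0 < m) (hd : 0 < h.natDegree)
    (hw : Slope p dm h w m r₀) : 0 ≤ w := by
  obtain ⟨r, -, -, hr⟩ := hw
  have h1 : (0 : ℝ) < m := by exact_mod_cast hm0
  have h2 : (0 : ℝ) < h.natDegree := by exact_mod_cast hd
  have h3 : 0 ≤ 2 * w * h.natDegree * m := le_trans (by positivity) hr
  by_contra hcon
  rw [not_le] at hcon
  have h4 : 2 * w * h.natDegree * m < 0 := by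
    have : 0 < (h.natDegree : ℝ) * m := by positivity
    nlinarith
  linarith

end NT

section Geo

variable {k : Type u} [Field k] {𝒱 : VarClass k} {ops : CycleOps 𝒱}
  {W : WeilCohomology.{u, v} ops} {Y Z Z' : 𝒱.Obj} {p : ℕ} {Φ : FrobSystem W p}
  {I : Type} {P : I → Piece W Y} {m : ℕ} {σ : W.K →+* ℂ} {R : ℤ[X]}

/-- The pull-back of a letter. -/
def ELetter.pull (g : Z' ⟶ Z) (a : ELetter p P m Z) : ELetter p P m Z' :=
  ⟨a.i, a.v, a.lam, a.isEig, g ≫ a.g⟩

lemma ELetter.pull_val (g : Z' ⟶ Z) (a : ELetter p P m Z) :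
    (ELetter.pull g a).val = W.map g a.val := by
  unfold ELetter.pull ELetter.val
  rw [W.map_comp]

/-- The products of the class of a cycle and of pull-backs of eigenvectors, where the sum of the
weights is at most `M`. -/
def IsStd (W : WeilCohomology.{u, v} ops) {Y : 𝒱.Obj} (p : ℕ) (P : I → Piece W Y) (m : ℕ)
    (w : I → ℝ) (Z : 𝒱.Obj) (M : ℝ) (c : W.H Z) : Prop :=
  ∃ (κ : ℕ) (A : W.H Z) (l : List (ELetter p P m Z)), A ∈ algClasses W Z κ ∧
    (l.map fun a => w a.i).sum ≤ M ∧ c = A * (l.map ELetter.val).prod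

variable {w : I → ℝ}

lemma algClasses_mul {κ κ' : ℕ} {A B : W.H Z} (hA : A ∈ algClasses W Z κ)
    (hB : B ∈ algClasses W Z κ') : A * B ∈ algClasses W Z (κ + κ') := by
  obtain ⟨z, hz, rfl⟩ := hA
  obtain ⟨z', hz', rfl⟩ := hB
  exact ⟨ops.mul z z', ops.mul_mem hz hz', W.cl_mul _ _⟩

lemma algClasses_map (g : Z' ⟶ Z) {κ : ℕ} {A : W.H Z} (hA : A ∈ algClasses W Z κ) :
    W.map g A ∈ algClasses W Z' κ := by
  obtain ⟨z, hz, rfl⟩ := hA
  exact ⟨ops.pull g z, ops.pull_mem g hz, W.cl_pull _ _⟩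

lemma one_mem_algClasses : (1 : W.H Z) ∈ algClasses W Z 0 :=
  ⟨Z.V.fundCycle, Z.V.fundCycle_mem, W.cl_fund Z⟩

lemma algClasses_comm {κ : ℕ} {A : W.H Z} (hA : A ∈ algClasses W Z κ) (b : W.H Z) :
    A * b = b * A := by
  obtain ⟨z, hz, rfl⟩ := hA
  exact W.even_comm (W.cl_mem hz) b

lemma IsStd.mul {M M' : ℝ} {c c' : W.H Z} (h : IsStd W p P m w Z M c)
    (h' : IsStd W p P m w Z M' c') : IsStd W p P m w Z (M + M') (c * c') := by
  obtain ⟨κ, A, l, hA, hw, rfl⟩ := h
  obtain ⟨κ', A', l', hA', hw', rfl⟩ := h'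
  refine ⟨κ + κ', A * A', l ++ l', algClasses_mul hA hA', ?_, ?_⟩
  · rw [List.map_append, List.sum_append]
    exact add_le_add hw hw'
  · rw [List.map_append, List.prod_append]
    calc A * (l.map ELetter.val).prod * (A' * (l'.map ELetter.val).prod)
        = A * ((l.map ELetter.val).prod * A') * (l'.map ELetter.val).prod := by
          simp only [mul_assoc]
      _ = A * (A' * (l.map ELetter.val).prod) * (l'.map ELetter.val).prod := by
          rw [algClasses_comm hA']
      _ = _ := by simp only [mul_assoc]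

lemma IsStd.map (g : Z' ⟶ Z) {M : ℝ} {c : W.H Z} (h : IsStd W p P m w Z M c) :
    IsStd W p P m w Z' M (W.map g c) := by
  obtain ⟨κ, A, l, hA, hw, rfl⟩ := h
  refine ⟨κ, W.map g A, l.map (ELetter.pull g), algClasses_map g hA, ?_, ?_⟩
  · rw [List.map_map]
    exact hw
  · rw [map_mul, map_list_prod, List.map_map, List.map_map]
    congr 3
    funext a
    exact (ELetter.pull_val g a).symm

/-- Algebraic classes are combinations of standard classes. -/
lemma std_of_alg {M : ℝ} (hM : 0 ≤ M) {c : W.H Z} (hc : c ∈ algSpan W Z) :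
    c ∈ Submodule.span W.K {c | IsStd W p P m w Z M c} := by
  refine Submodule.span_mono ?_ hc
  intro x hx
  obtain ⟨κ, hκ⟩ := Set.mem_iUnion.1 hx
  exact ⟨κ, x, [], hκ, by simpa using hM, by simp⟩

/-- **The cohomology of the products is spanned by standard classes.** -/
theorem span_std (H : GSetup Φ σ P m R) (hw0 : ∀ i, 0 ≤ w i) (hY : ∀ y : W.H Y, y ∈ algSpan W Y)
    (hX : ∀ i x, IsExt p (P i) m x → x ∈ algSpan W (P i).obj) {M : ℝ}
    (hZ : IsProductOfWeight Y (fun i => (P i).obj) w Z M) (c : W.H Z) :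
    c ∈ Submodule.span W.K {c | IsStd W p P m w Z M c} := by
  induction hZ with
  | base => exact std_of_alg le_rfl (hY c)
  | member i =>
    obtain ⟨y, hy⟩ := H.gen i c
    have e : c = W.map (P i).mor y + (c - W.map (P i).mor y) := by abel
    rw [e]
    refine Submodule.add_mem _ (std_of_alg (hw0 i) (algSpan_map _ (hY y))) ?_
    have h1 := H.span i _ hy
    refine Submodule.span_le.2 ?_ h1
    rintro v (⟨lam, hv⟩ | hv)
    · refine Submodule.subset_span ⟨0, 1, [⟨i, v, lam, hv, 𝟙 _⟩], one_mem_algClasses, ?_, ?_⟩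
      · simp
      · rw [one_mul, List.map_cons, List.map_nil, List.prod_cons, List.prod_nil, mul_one,
          ELetter.val, W.map_id]
    · exact std_of_alg (hw0 i) (hX i v hv)
  | prod h1 h2 ih1 ih2 =>
    rename_i Z₁ Z₂ a b
    obtain ⟨t, rfl⟩ := (W.kunneth Z₁ Z₂).2 c
    induction t using TensorProduct.induction_on with
    | zero => rw [map_zero]; exact Submodule.zero_mem _
    | add x y hx hy => rw [map_add]; exact Submodule.add_mem _ hx hy
    | tmul x y =>
      have e : kunnethMap (W.map (Obj.fst Z₁ Z₂)) (W.map (Obj.snd Z₁ Z₂)) (x ⊗ₜ[W.K] y) =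
          W.map (Obj.fst Z₁ Z₂) x * W.map (Obj.snd Z₁ Z₂) y := rfl
      rw [e]
      have h3 : W.map (Obj.fst Z₁ Z₂) x ∈
          Submodule.span W.K {c | IsStd W p P m w (Z₁.prod Z₂) a c} := by
        have h5 := Submodule.apply_mem_span_image_of_mem_span
          (W.map (Obj.fst Z₁ Z₂)).toLinearMap (ih1 x)
        refine Submodule.span_mono ?_ h5
        rintro _ ⟨z, hz, rfl⟩
        exact IsStd.map _ hz
      have h4 : W.map (Obj.snd Z₁ Z₂) y ∈
          Submodule.span W.K {c | IsStd W p P m w (Z₁.prod Z₂) b c} := by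
        have h5 := Submodule.apply_mem_span_image_of_mem_span
          (W.map (Obj.snd Z₁ Z₂)).toLinearMap (ih2 y)
        refine Submodule.span_mono ?_ h5
        rintro _ ⟨z, hz, rfl⟩
        exact IsStd.map _ hz
      have h5 := Submodule.mul_mem_mul h3 h4
      rw [Submodule.span_mul_span] at h5
      refine Submodule.span_mono ?_ h5
      rintro _ ⟨x, hx, y, hy, rfl⟩
      exact IsStd.mul hx hy

/-- Two letters of the list are dual. -/
def HasPair (p : ℕ) (P : I → Piece W Y) (m : ℕ) (l : List (ELetter p P m Z)) : Prop :=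
  ∃ (a b : ELetter p P m Z) (l' : List (ELetter p P m Z)), l.Perm (a :: b :: l') ∧
    b.i = a.i ∧ a.lam * b.lam = ((P a.i).Q p m : W.K)

/-- A standard class without dual letters. -/
def IsRes (W : WeilCohomology.{u, v} ops) {Y : 𝒱.Obj} (p : ℕ) (P : I → Piece W Y) (m : ℕ)
    (w : I → ℝ) (Z : 𝒱.Obj) (M : ℝ) (c : W.H Z) : Prop :=
  ∃ (κ : ℕ) (A : W.H Z) (l : List (ELetter p P m Z)), A ∈ algClasses W Z κ ∧
    (l.map fun a => w a.i).sum ≤ M ∧ ¬ HasPair p P m l ∧ c = A * (l.map ELetter.val).prod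

/-- **Dual letters can be removed.** -/
theorem res_of_std [IsAlgClosed W.K] (H : GSetup Φ σ P m R) (hw0 : ∀ i, 0 ≤ w i) {M : ℝ} :
    ∀ (n : ℕ) (l : List (ELetter p P m Z)), l.length ≤ n → (l.map fun a => w a.i).sum ≤ M →
      ∀ A ∈ algSpan W Z, A * (l.map ELetter.val).prod ∈
        Submodule.span W.K {c | IsRes W p P m w Z M c} := by
  classical
  intro n
  induction n with
  | zero =>
    intro l hl hM A hA
    have : l = [] := List.length_eq_zero_iff.1 (by omega)
    subst this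
    refine algSpan_induction (p := fun A => A * (([] : List (ELetter p P m Z)).map
      ELetter.val).prod ∈ Submodule.span W.K {c | IsRes W p P m w Z M c}) ?_ ?_ ?_ ?_ hA
    · rw [zero_mul]; exact Submodule.zero_mem _
    · intro x y hx hy; rw [add_mul]; exact Submodule.add_mem _ hx hy
    · intro t x hx; rw [smul_mul_assoc]; exact Submodule.smul_mem _ _ hx
    · intro κ z hz
      refine Submodule.subset_span ⟨κ, _, [], ⟨z, hz, rfl⟩, hM, ?_, rfl⟩
      rintro ⟨a, b, l', hp', -⟩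
      exact absurd hp'.length_eq (by simp)
  | succ n ih =>
    intro l hl hM A hA
    by_cases hpr : HasPair p P m l
    · obtain ⟨a, b, l', hperm, hi, hlam⟩ := hpr
      obtain ⟨ε, hε⟩ := prod_perm_letters H hperm
      have hab : a.val * b.val ∈ algSpan W Z := pair_val W397.MF.pair H a b hi hlam
      have e : A * (l.map ELetter.val).prod =
          ε • ((A * (a.val * b.val)) * (l'.map ELetter.val).prod) := by
        rw [hε, List.map_cons, List.prod_cons, List.map_cons, List.prod_cons, mul_smul_comm]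
        simp only [mul_assoc]
      rw [e]
      refine Submodule.smul_mem _ _ (ih l' ?_ ?_ _ (algSpan_mul hA hab))
      · have := hperm.length_eq
        simp only [List.length_cons] at this
        omega
      · have h1 := (hperm.map fun a => w a.i).sum_eq
        rw [List.map_cons, List.sum_cons, List.map_cons, List.sum_cons] at h1
        have h2 := hw0 a.i
        have h3 := hw0 b.i
        linarith
    · refine algSpan_induction (p := fun A => A * (l.map ELetter.val).prod ∈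
        Submodule.span W.K {c | IsRes W p P m w Z M c}) ?_ ?_ ?_ ?_ hA
      · rw [zero_mul]; exact Submodule.zero_mem _
      · intro x y hx hy; rw [add_mul]; exact Submodule.add_mem _ hx hy
      · intro t x hx; rw [smul_mul_assoc]; exact Submodule.smul_mem _ _ hx
      · intro κ z hz
        exact Submodule.subset_span ⟨κ, _, l, ⟨z, hz, rfl⟩, hM, hpr, rfl⟩

/-- A standard class without dual letters, all of whose factors are eigenvectors of the Frobenius
endomorphism of level `t`. -/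
def IsResAt (Φ : FrobSystem W p) (P : I → Piece W Y) (m : ℕ)
    (w : I → ℝ) (Z : 𝒱.Obj) (M : ℝ) (t : ℕ) (c : W.H Z) : Prop :=
  ∃ (κ : ℕ) (A : W.H Z) (l : List (ELetter p P m Z)), A ∈ algClasses W Z κ ∧
    frob Φ Z t A = (card Φ Z t : W.K) ^ κ • A ∧ EComm Φ t l ∧
    (l.map fun a => w a.i).sum ≤ M ∧ ¬ HasPair p P m l ∧ c = A * (l.map ELetter.val).prod

lemma ecomm_exists (hP : ∀ i, (P i).IsFrobenius Φ m) (l : List (ELetter p P m Z)) : ∃ t, 0 < t ∧
    ∀ r, 0 < r → EComm Φ (t * r) l := by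
  induction l with
  | nil => exact ⟨1, one_pos, fun r _ a ha => absurd ha List.not_mem_nil⟩
  | cons a l ih =>
    obtain ⟨t, ht, h⟩ := ih
    obtain ⟨s, hs, h'⟩ := exists_glcomm (hP a.i) a.g
    refine ⟨s * t, Nat.mul_pos hs ht, fun r hr b hb => ?_⟩
    rcases List.mem_cons.1 hb with rfl | hb
    · rw [mul_assoc]
      exact h' (t * r) (Nat.mul_pos ht hr)
    · have e : s * t * r = t * (s * r) := by ring
      rw [e]
      exact h (s * r) (Nat.mul_pos hs hr) b hb

/-- **At a suitable level.** -/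
theorem span_resAt [IsAlgClosed W.K] (H : GSetup Φ σ P m R) (hw0 : ∀ i, 0 ≤ w i)
    (hY : ∀ y : W.H Y, y ∈ algSpan W Y)
    (hX : ∀ i x, IsExt p (P i) m x → x ∈ algSpan W (P i).obj) {M : ℝ}
    (hZ : IsProductOfWeight Y (fun i => (P i).obj) w Z M) (c : W.H Z) :
    ∃ t, 0 < t ∧ ∀ r, 0 < r →
      c ∈ Submodule.span W.K {c | IsResAt Φ P m w Z M (t * r) c} := by
  have h0 : c ∈ Submodule.span W.K {c | IsRes W p P m w Z M c} := by
    refine Submodule.span_le.2 ?_ (span_std H hw0 hY hX hZ c)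
    rintro x ⟨κ, A, l, hA, hM, rfl⟩
    exact res_of_std H hw0 l.length l le_rfl hM A
      (Submodule.subset_span (Set.mem_iUnion.2 ⟨κ, hA⟩))
  clear hZ
  induction h0 using Submodule.span_induction with
  | mem c hc =>
    obtain ⟨κ, A, l, hA, hM, hno, rfl⟩ := hc
    obtain ⟨z, hz, rfl⟩ := hA
    obtain ⟨s, hs, h1⟩ := Φ.cyc hz
    obtain ⟨t, ht, h2⟩ := ecomm_exists H.frob l
    refine ⟨s * t, Nat.mul_pos hs ht, fun r hr => Submodule.subset_span
      ⟨κ, _, l, ⟨z, hz, rfl⟩, ?_, ?_, hM, hno, rfl⟩⟩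
    · have h3 := W534.frob_mul Φ h1 (t * r)
      rw [← mul_assoc] at h3
      rw [frob_apply, h3, card_pow]
    · have e : s * t * r = t * (s * r) := by ring
      rw [e]
      exact h2 _ (Nat.mul_pos hs hr)
  | zero => exact ⟨1, one_pos, fun r _ => Submodule.zero_mem _⟩
  | add x y _ _ hx hy =>
    obtain ⟨t, ht, h1⟩ := hx
    obtain ⟨s, hs, h2⟩ := hy
    refine ⟨t * s, Nat.mul_pos ht hs, fun r hr => Submodule.add_mem _ ?_ ?_⟩
    · rw [mul_assoc]
      exact h1 _ (Nat.mul_pos hs hr)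
    · have e : t * s * r = s * (t * r) := by ring
      rw [e]
      exact h2 _ (Nat.mul_pos ht hr)
  | smul a x _ hx =>
    obtain ⟨t, ht, h1⟩ := hx
    exact ⟨t, ht, fun r hr => Submodule.smul_mem _ _ (h1 r hr)⟩

lemma frob_eq_pow (t : ℕ) : frob Φ Z t = (W.map (Φ.Fr Z)).toLinearMap ^ t := by
  have h4 := frob_mul_eq (Z := Z) Φ 1 t
  rw [one_mul] at h4
  rw [h4]
  congr 1

lemma gen_frob {α : W.K} {c : W.H Z}
    (hc : c ∈ Module.End.maxGenEigenspace (W.map (Φ.Fr Z)).toLinearMap α) (t : ℕ) :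
    c ∈ Module.End.maxGenEigenspace (frob Φ Z t) (α ^ t) := by
  rw [frob_eq_pow]
  exact gen_mono (W.map (Φ.Fr Z)).toLinearMap α t hc

/-- The eigenvalue of a standard class. -/
lemma eig_std (H : GSetup Φ σ P m R) {t t₀ : ℕ} (ht : t = t₀ * m) {κ : ℕ} {A : W.H Z}
    {l : List (ELetter p P m Z)} (hA : frob Φ Z t A = (card Φ Z t : W.K) ^ κ • A)
    (hl : EComm Φ t l) : frob Φ Z t (A * (l.map ELetter.val).prod) =
      ((card Φ Z t : W.K) ^ κ * (l.map ELetter.lam).prod ^ (Φ.e Z * t₀)) •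
        (A * (l.map ELetter.val).prod) := by
  obtain ⟨t', ht', h3, h4⟩ := frob_letters H l hl
  rw [frob_mul_apply, hA, h3, smul_mul_smul_comm]
  congr 2
  by_cases hl0 : l = []
  · subst hl0
    simp
  · congr 1
    have h5 := h4 hl0
    have h6 : m * t' = m * (Φ.e Z * t₀) := by
      rw [h5, ht]
      ring
    exact Nat.eq_of_mul_eq_mul_left H.hm h6

/-- An eigenvector of a power of the Frobenius endomorphism is in the Galois coniveau if the
eigenvalue is divisible. -/
lemma mem_galoisConiveau [IsAlgClosed W.K] {t n : ℕ} (ht : 0 < t) {γ : W.K} {v : W.H Z}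
    (hv : frob Φ Z t v = γ • v) (hγ : IsIntegral ℤ (γ / (p : W.K) ^ (Φ.e Z * n * t))) :
    v ∈ galoisConiveau Φ Z n := by
  have h1 := mem_span_gen (T := frob Φ Z t)
    (M := {v | ∃ ν : W.K, v ∈ Module.End.maxGenEigenspace (W.map (Φ.Fr Z)).toLinearMap ν})
    (by
      rintro x ⟨ν, hx⟩
      exact ⟨_, gen_frob hx t⟩) (span_gen_top (W.map (Φ.Fr Z)).toLinearMap v) (eig_mem_gen hv)
  refine Submodule.span_le.2 ?_ h1
  rintro x ⟨⟨ν, hx⟩, hxγ⟩
  by_cases hx0 : x = 0
  · rw [hx0]
    exact Submodule.zero_mem _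
  have h2 := eq_of_mem_gen (gen_frob hx t) hxγ hx0
  have h3 : IsIntegral ℤ (ν / (p : W.K) ^ (Φ.e Z * n)) := by
    apply IsIntegral.of_pow ht
    rw [div_pow, h2, ← pow_mul]
    exact hγ
  exact (le_iSup₂_of_le (f := fun (α : W.K) (_ : IsIntegral ℤ (α / (p : W.K) ^ (Φ.e Z * n))) =>
    Module.End.maxGenEigenspace (W.map (Φ.Fr Z)).toLinearMap α) ν h3 le_rfl) hx

/-- **Supported classes are in the Galois coniveau.** -/
theorem supported_le [IsAlgClosed W.K] (H : GSetup Φ σ P m R) (hw0 : ∀ i, 0 ≤ w i)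
    (hY : ∀ y : W.H Y, y ∈ algSpan W Y)
    (hX : ∀ i x, IsExt p (P i) m x → x ∈ algSpan W (P i).obj) {M : ℝ}
    (hZ : IsProductOfWeight Y (fun i => (P i).obj) w Z M) (n : ℕ) :
    supported W Z n ≤ galoisConiveau Φ Z n := by
  refine Submodule.span_le.2 ?_
  rintro c ⟨j, z, y, hj, hz, rfl⟩
  obtain ⟨s, hs, h1⟩ := Φ.cyc hz
  obtain ⟨t₁, ht₁, h2⟩ := span_resAt H hw0 hY hX hZ y
  set t₀ := t₁ * s with ht₀
  set t := t₀ * m with ht
  have ht₀p : 0 < t₀ := Nat.mul_pos ht₁ hs
  have htp : 0 < t := Nat.mul_pos ht₀p H.hm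
  have h3 := h2 (s * m) (Nat.mul_pos hs H.hm)
  have e1 : t₁ * (s * m) = t := by rw [ht, ht₀]; ring
  rw [e1] at h3
  have h4 : frob Φ Z t (W.cl Z z) = (card Φ Z t : W.K) ^ j • W.cl Z z := by
    have h5 := W534.frob_mul Φ h1 (t₁ * m)
    have e2 : s * (t₁ * m) = t := by rw [ht, ht₀]; ring
    rw [e2] at h5
    rw [frob_apply, h5, card_pow]
  have h6 := Submodule.apply_mem_span_image_of_mem_span (LinearMap.mulLeft W.K (W.cl Z z)) h3
  refine Submodule.span_le.2 ?_ h6
  rintro _ ⟨x, ⟨κ, A, l, hA, hA', hl, -, -, rfl⟩, rfl⟩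
  have hpK : (p : W.K) ≠ 0 := Nat.cast_ne_zero.2 (by have := H.hp; omega)
  refine mem_galoisConiveau (t := t) (γ := (card Φ Z t : W.K) ^ j *
    ((card Φ Z t : W.K) ^ κ * (l.map ELetter.lam).prod ^ (Φ.e Z * t₀))) htp ?_ ?_
  · rw [LinearMap.mulLeft_apply, frob_mul_apply, h4, eig_std H ht hA' hl, smul_mul_smul_comm]
  · obtain ⟨δ, rfl⟩ := Nat.exists_eq_add_of_le hj
    have e3 : (card Φ Z t : W.K) ^ (n + δ) = (p : W.K) ^ (Φ.e Z * n * t) *
        (card Φ Z t : W.K) ^ δ := by
      rw [pow_add, card_pow]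
      congr 2
      ring
    rw [e3, mul_assoc, mul_div_cancel_left₀ _ (pow_ne_zero _ hpK)]
    have hnat : ∀ a : ℕ, IsIntegral ℤ ((a : ℕ) : W.K) := fun a => by
      have := isIntegral_algebraMap (R := ℤ) (A := W.K) (x := (a : ℤ))
      rwa [eq_intCast, Int.cast_natCast] at this
    refine ((hnat _).pow _).mul (((hnat _).pow _).mul (IsIntegral.pow ?_ _))
    clear hl hA' h6
    induction l with
    | nil => exact isIntegral_one
    | cons a l ih =>
      rw [List.map_cons, List.prod_cons]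
      exact IsIntegral.mul ⟨_, weil_monic _ (H.monic a.i), a.isEig.root⟩ ih

/-- **The coniveau filtrations.** -/
theorem coniveau_le [IsAlgClosed W.K] (hp : p.Prime) (H : GSetup Φ σ P m R) (o : I → Prop)
    (hF : HasFlips o (fun i => (P i).Q p m) (fun i => (P i).pol) R) (r₀ : I → ℕ)
    (hr₀ : ∀ i, o i → r₀ i = 2)
    (hw : ∀ i, Slope p ((P i).obj.dim * m) (P i).pol (w i) m (r₀ i))
    (hdeg : ∀ i, 0 < (P i).pol.natDegree)
    (hY : ∀ y : W.H Y, y ∈ algSpan W Y)
    (hX : ∀ i x, IsExt p (P i) m x → x ∈ algSpan W (P i).obj) {M : ℝ}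
    (hZ : IsProductOfWeight Y (fun i => (P i).obj) w Z M) (ν ν' : ℕ) (hM : M < ν - ν' + 1) :
    galoisConiveau Φ Z ν ≤ supported W Z ν' := by
  have hw0 : ∀ i, 0 ≤ w i := fun i => slope_nonneg H.hm (hdeg i) (hw i)
  refine iSup₂_le ?_
  intro α hα c hc
  obtain ⟨t₀, ht₀, h1⟩ := span_resAt H hw0 hY hX hZ c
  set t := t₀ * m with ht
  have htp : 0 < t := Nat.mul_pos ht₀ H.hm
  have h2 := h1 m H.hm
  have hc' : c ∈ Module.End.maxGenEigenspace (frob Φ Z t) (α ^ t) := gen_frob hc t
  have hgen : ∀ x ∈ {c | IsResAt Φ P m w Z M t c}, ∃ ν : W.K,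
      x ∈ (frob Φ Z t).maxGenEigenspace ν := by
    rintro x ⟨κ, A, l, hA, hA', hl, -, -, rfl⟩
    exact ⟨_, eig_mem_gen (eig_std H ht hA' hl)⟩
  have h5 := mem_span_gen hgen h2 hc'
  refine Submodule.span_le.2 ?_ h5
  rintro x ⟨hx, hxα⟩
  by_cases hx0 : x = 0
  · rw [hx0]
    exact Submodule.zero_mem _
  obtain ⟨κ, A, l, hA, hA', hl, hlM, hno, rfl⟩ := hx
  have h6 := eq_of_mem_gen (eig_mem_gen (eig_std H ht hA' hl)) hxα hx0
  -- the codimension
  have hκ : ν' ≤ κ := by
    by_contra hcon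
    rw [not_le] at hcon
    have hMνν : M < (ν : ℝ) - κ := by
      have : (κ : ℝ) + 1 ≤ ν' := by exact_mod_cast hcon
      linarith
    have hM0 : 0 ≤ M := by
      refine le_trans ?_ hlM
      apply List.sum_nonneg
      intro y hy
      obtain ⟨a, -, rfl⟩ := List.mem_map.1 hy
      exact hw0 _
    have hκν : κ < ν := by
      have : (κ : ℝ) < ν := by linarith
      exact_mod_cast this
    have hpK : (p : W.K) ≠ 0 := Nat.cast_ne_zero.2 hp.ne_zero
    have hint : IsIntegral ℤ ((((l.map fun a => (a.i, a.lam)) : List (I × W.K)).map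
        fun x => x.2 ^ (Φ.e Z * t₀)).prod / (p : W.K) ^ (m * (Φ.e Z * t₀) * (ν - κ))) := by
      have h7 : IsIntegral ℤ ((α / (p : W.K) ^ (Φ.e Z * ν)) ^ t) := hα.pow t
      have h8 : (((l.map fun a => (a.i, a.lam)) : List (I × W.K)).map
        fun x => x.2 ^ (Φ.e Z * t₀)).prod = (l.map ELetter.lam).prod ^ (Φ.e Z * t₀) := by
        clear hl hlM hno h6 hx0 hxα hA hA'
        induction l with
        | nil => simp
        | cons a l ih =>
          rw [List.map_cons, List.map_cons, List.prod_cons, ih, List.map_cons, List.prod_cons,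
            mul_pow]
      rw [h8]
      convert h7 using 1
      have e1 : (p : W.K) ^ (Φ.e Z * ν * t) =
          (p : W.K) ^ (Φ.e Z * t * κ) * (p : W.K) ^ (m * (Φ.e Z * t₀) * (ν - κ)) := by
        rw [← pow_add]
        congr 1
        obtain ⟨δ, rfl⟩ := Nat.exists_eq_add_of_lt hκν
        rw [show κ + δ + 1 - κ = δ + 1 by omega, ht]
        ring
      rw [div_pow, ← h6, card_pow, ← pow_mul, e1]
      exact (mul_div_mul_left _ _ (pow_ne_zero _ hpK)).symm
    have h9 := weight_leK hp H.hm (fun i => (P i).obj.dim) H.monic o hF w r₀ hr₀ hw σ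
      (l.map fun a => (a.i, a.lam)) (by
        intro x hx
        obtain ⟨a, -, rfl⟩ := List.mem_map.1 hx
        exact a.isEig.root) (by
        intro x hx hc
        obtain ⟨a, ha, rfl⟩ := List.mem_map.1 hx
        obtain ⟨b, hb, hbe⟩ := List.mem_map.1 hc
        have e1 : b.i = a.i := (Prod.ext_iff.1 hbe).1
        have e2 : b.lam = (((P a.i).Q p m : ℕ) : W.K) / a.lam := (Prod.ext_iff.1 hbe).2
        have ha0 : a.lam ≠ 0 := root_ne_zero (GSetup.Q_pos H a.i).ne' (H.monic a.i) a.isEig.root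
        have e3 : a.lam * b.lam = ((P a.i).Q p m : W.K) := by
          rw [e2]
          field_simp
        have hne : a ≠ b := by
          rintro rfl
          have h10 := ne_div_of_sep (GSetup.Q_pos H a.i) (H.monic a.i) (H.sep a.i)
            (aeval_sigma σ a.isEig.root)
          apply h10
          have h11 := congrArg σ e2
          rw [map_div₀, map_natCast] at h11
          exact h11
        apply hno
        classical
        refine ⟨a, b, (l.erase a).erase b, ?_, e1, e3⟩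
        have h12 : b ∈ l.erase a := (List.mem_erase_of_ne hne.symm).2 hb
        exact (List.perm_cons_erase ha).trans ((List.perm_cons_erase h12).cons a))
      (Φ.e Z * t₀) (Nat.mul_pos (Φ.e_pos Z) ht₀) (ν - κ) hint
    rw [List.map_map] at h9
    have h10 : ((ν - κ : ℕ) : ℝ) ≤ M := h9.trans hlM
    rw [Nat.cast_sub hκν.le] at h10
    linarith
  obtain ⟨z, hz, rfl⟩ := hA
  exact Submodule.subset_span ⟨κ, z, _, hκ, hz, rfl⟩

end Geo

end Pool.Agent.W5h58.GT
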