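import Pool.Agent.W458.MF.PDefs

/-!
# The coniveau filtrations: definitions
-/

open CategoryTheory AlgebraicGeometry Polynomial

universe u v

namespace Pool.Agent.W5h58.GT

open Pool.Agent.H914 Pool.Agent.W534 VarClass Obj WeilCohomology Pool.Agent.W458.MF

/-- The linear combinations of the products `c y`, where `c` is the class of a cycle of codimension
at least `n`, and `y` is any class. (They are supported on closed subsets of codimension at least
`n`.) -/
def supported {k : Type u} [Field k] {𝒱 : VarClass k} {ops : CycleOps 𝒱}
    (W : WeilCohomology.{u, v} ops) (Z : 𝒱.Obj) (n : ℕ) : Submodule W.K (W.H Z) :=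
  Submodule.span W.K {c | ∃ (j : ℕ) (z : Z.Cycles) (y : W.H Z), n ≤ j ∧ Z.IsCyc j z ∧
    c = W.cl Z z * y}

/-- The sum of the generalised eigenspaces of the Frobenius endomorphism of `Z` (relative to the
field with `q = p ^ (e Z)` elements) for the eigenvalues `α` such that `α / q ^ n` is an algebraic
integer. -/
noncomputable def galoisConiveau {k : Type u} [Field k] {𝒱 : VarClass k} {ops : CycleOps 𝒱}
    {W : WeilCohomology.{u, v} ops} {p : ℕ} (Φ : FrobSystem W p) (Z : 𝒱.Obj) (n : ℕ) :
    Submodule W.K (W.H Z) :=
  ⨆ (α : W.K) (_ : IsIntegral ℤ (α / (p : W.K) ^ (Φ.e Z * n))),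
    Module.End.maxGenEigenspace (W.map (Φ.Fr Z)).toLinearMap α

/-- The coniveau filtrations of the cohomology of `Z` are equal up to the defect `M`: the supported
classes are in the Galois coniveau, and the Galois coniveau of level `n` is contained in the
supported classes of level `n'` whenever `M < n - n' + 1`. For `M < 1` this is the generalised Tate
conjecture for `Z`, in all degrees and for all levels: the filtrations are equal. -/
def ConiveauUpTo {k : Type u} [Field k] {𝒱 : VarClass k} {ops : CycleOps 𝒱}
    (W : WeilCohomology.{u, v} ops) {p : ℕ} (Φ : FrobSystem W p) (Z : 𝒱.Obj) (M : ℝ) : Prop :=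
  (∀ n, supported W Z n ≤ galoisConiveau Φ Z n) ∧
    ∀ n n' : ℕ, M < n - n' + 1 → galoisConiveau Φ Z n ≤ supported W Z n'

end Pool.Agent.W5h58.GT
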