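import Pool.Agent.W5h58.GT.Geo
import Pool.Agent.W902.MF.FLIP2
import Pool.Agent.W458.MF.Gen10
import Pool.Agent.W5h58.VL.Final

/-!
# The coniveau filtrations of all products of almost all members
-/

set_option autoImplicit false

open CategoryTheory AlgebraicGeometry Polynomial

universe u v w

namespace Pool.Agent.W5h58.GT

open Pool.Agent.H914 Pool.Agent.W534 Pool.Agent.W521.Frob VarClass Obj WeilCohomology
  Pool.Agent.H281R3.HT Pool.Agent.W458.MF Pool.Agent.W290.MF

variable {k : Type u} [Field k] {𝒱 : VarClass k} {ops : CycleOps 𝒱}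

/-- **The coniveau filtrations of all products of almost all members.** -/
theorem final_GT (W : WeilCohomology.{u, v} ops) [IsAlgClosed W.K] (σ : W.K →+* ℂ) (p : ℕ)
    (hp : p.Prime) (Φ : FrobSystem W p) (Y : 𝒱.Obj) (hY : ∀ y : W.H Y, y ∈ algSpan W Y)
    {I : Type} [Fintype I] (F : I → Family W Y) (e : I → ℕ)
    (hF : ∀ i, Pol.HasLargeMonodromy (F i) Φ (e i)) (ε : ℝ) (hε : 0 < ε) :
    ∃ m₀ : ℕ, ∀ m ≥ m₀, ({s : ∀ i, (F i).S m |
        ¬ ∀ w : I → ℝ, (∀ i, IsAdmissible ((F i).member m (s i)) p m (e i) (w i)) →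
          ∀ Z M, IsProductOfWeight Y (fun i => ((F i).member m (s i)).obj) w Z M →
            ConiveauUpTo W Φ Z M}.ncard : ℝ) ≤
      ε * ∏ i, (Nat.card ((F i).S m) : ℝ) := by
  classical
  have hF' := fun i => largeMonodromy_of_pol (hF i)
  choose d n g l₀ δ D π hF using hF'
  obtain ⟨R, m₀, h⟩ := setup_flip (σ := σ) W216.MF.sieve
    (W806.MF.dens W337.MF.orb W366.MF.winj W205.MF.cnt) st_odens st_edens W976.MF.SPL
    W216.MF.uni st_nt2 W976.MF.FLIP W902.MF.FLIP2 hp (integral_of_alg hY) F d n g e l₀ δ D π hF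
    ε hε
  refine ⟨m₀, fun m hm => le_trans ?_ (h m hm)⟩
  refine Nat.cast_le.2 (Set.ncard_le_ncard ?_ (Set.toFinite _))
  rintro s hs ⟨H, o, ho, hfl⟩
  refine hs fun w hw Z M hZ => ?_
  have hdim : ∀ i, ((F i).member m (s i)).obj.dim = d i := fun i => (hF i).dim m (s i)
  have hmem : ∀ i, Fam.IsMember ((F i).member m (s i)) Φ m (n i) (e i) (δ i) :=
    fun i => (hF i).isMember m H.hm (s i)
  have hX : ∀ i x, IsExt p ((F i).member m (s i)) m x →
      x ∈ algSpan W ((F i).member m (s i)).obj := by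
    intro i x hx
    by_cases he : e i = 0
    · have h0 := hmem i
      rw [he] at h0
      rw [ext_zero (P := fun i => (F i).member m (s i)) H i h0 hx]
      exact Submodule.zero_mem _
    · obtain ⟨hx1, r, hr, hx2⟩ := hx
      have hsq : ((p : W.K) ^ (r * m)) ^ 2 =
          (p : W.K) ^ (((F i).member m (s i)).obj.dim * m) := by
        rw [hr, ← pow_mul]
        congr 1
        ring
      rcases hx2 with hx2 | hx2
      · exact (hw i).tate he x hx1 _ hsq hx2
      · exact (hw i).tate he x hx1 _ (by rw [neg_sq, hsq]) hx2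
  have hdeg : ∀ i, 0 < ((F i).member m (s i)).pol.natDegree := fun i => (hmem i).degree_pos
  have hfl' : HasFlips o (fun i => ((F i).member m (s i)).Q p m)
      (fun i => ((F i).member m (s i)).pol) R := by
    have e1 : (fun i => ((F i).member m (s i)).Q p m) = fun i => p ^ (d i * m) := by
      funext i
      rw [Piece.Q, hdim i]
    rw [e1]
    exact hfl
  set r₀ : I → ℕ := fun i => if e i = 0 ∧ Even (d i) then 2 else 0 with hr₀
  have hsl : ∀ i, Slope p (((F i).member m (s i)).obj.dim * m) ((F i).member m (s i)).pol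
      (w i) m (r₀ i) := by
    intro i
    obtain ⟨r, h1, h2, h3⟩ := (hw i).slope
    refine ⟨r, ?_, h2, ?_⟩
    · rw [hr₀]
      dsimp only
      split_ifs with h4
      · exact h1 h4.1 (by rw [hdim i]; exact h4.2)
      · exact Nat.zero_le _
    · push_cast
      exact h3
  have hr₀' : ∀ i, o i → r₀ i = 2 := fun i hi => if_pos (ho i hi)
  have hw0 : ∀ i, 0 ≤ w i := fun i => slope_nonneg H.hm (hdeg i) (hsl i)
  refine ⟨fun n => supported_le (P := fun i => (F i).member m (s i)) H hw0 hY hX hZ n,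
    fun n n' hn => ?_⟩
  exact coniveau_le (P := fun i => (F i).member m (s i)) hp H o hfl' r₀ hr₀' hsl hdeg hY hX hZ
    n n' hn

end Pool.Agent.W5h58.GT
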