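import Pool.Agent.W338.MF.NT
import Mathlib.NumberTheory.Padics.Complex

/-!
# Slopes and the integrality of products of Frobenius eigenvalues
-/

set_option autoImplicit false

open Polynomial NumberField

namespace Pool.Agent.W5h58.GT

open Pool.Agent.W458.MF Pool.Agent.W521.Frob Pool.Agent.W521.Criterion Pool.Agent.W338.MF

/-- A nonarchimedean absolute value of a number field over the prime `p`. -/
structure IsVal (p : ℕ) {L : Type} [Field L] (N : AbsoluteValue L ℝ) : Prop where
  add_le : ∀ x y, N (x + y) ≤ max (N x) (N y)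
  p_eq : N p = (p : ℝ)⁻¹
  int_le : ∀ x, IsIntegral ℤ x → N x ≤ 1

lemma exists_val (p : ℕ) (hp : p.Prime) (L : Type) [Field L] [NumberField L] :
    ∃ N : AbsoluteValue L ℝ, IsVal p N := by
  haveI : Fact p.Prime := ⟨hp⟩
  let φ : L →ₐ[ℚ] PadicAlgCl p := IsAlgClosed.lift
  refine ⟨(NormedField.toAbsoluteValue (PadicAlgCl p)).comp φ.toRingHom.injective, ?_, ?_, ?_⟩
  · intro x y
    change ‖φ (x + y)‖ ≤ max ‖φ x‖ ‖φ y‖
    rw [map_add]
    exact PadicAlgCl.isNonarchimedean p _ _
  · change ‖φ (p : L)‖ = _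
    rw [map_natCast, ← PadicAlgCl.valuation_coe, PadicAlgCl.valuation_p]
    simp
  · intro x hx
    change ‖φ x‖ ≤ 1
    have h1 : IsIntegral ℤ (φ x) := hx.map (φ.restrictScalars ℤ)
    generalize φ x = y at h1
    obtain ⟨f, hf, hf0⟩ := h1
    by_contra hcon
    rw [not_le] at hcon
    have hn : ∀ n : ℤ, ‖(n : PadicAlgCl p)‖ ≤ 1 := fun n =>
      IsUltrametricDist.norm_intCast_le_one (PadicAlgCl p) n
    have hd : 0 < f.natDegree := by
      rcases Nat.eq_zero_or_pos f.natDegree with h | h
      · exfalso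
        rw [eq_one_of_monic_natDegree_zero hf h, eval₂_one] at hf0
        exact one_ne_zero hf0
      · exact h
    rw [eval₂_eq_sum_range, Finset.sum_range_succ, hf.coeff_natDegree, map_one, one_mul] at hf0
    have h2 : y ^ f.natDegree = - ∑ i ∈ Finset.range f.natDegree,
        (algebraMap ℤ (PadicAlgCl p)) (f.coeff i) * y ^ i := by
      linear_combination hf0
    have h3 : ‖y‖ ^ f.natDegree ≤ ‖y‖ ^ (f.natDegree - 1) := by
      rw [← norm_pow, h2, norm_neg]
      refine IsUltrametricDist.norm_sum_le_of_forall_le_of_nonneg (by positivity) ?_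
      intro i hi
      rw [Finset.mem_range] at hi
      rw [norm_mul, norm_pow, eq_intCast]
      calc ‖((f.coeff i : ℤ) : PadicAlgCl p)‖ * ‖y‖ ^ i ≤ 1 * ‖y‖ ^ (f.natDegree - 1) := by
            refine mul_le_mul (hn _) (pow_le_pow_right₀ hcon.le (by omega)) (by positivity)
              zero_le_one
        _ = _ := one_mul _
    have h4 := pow_lt_pow_right₀ hcon (show f.natDegree - 1 < f.natDegree by omega)
    exact absurd h3 (not_le.2 h4)

section

variable {p : ℕ} {L : Type} [Field L] {N : AbsoluteValue L ℝ}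

lemma sub_le (hN : IsVal p N) (x y : L) : N (x - y) ≤ max (N x) (N y) := by
  rw [sub_eq_add_neg]
  refine (hN.add_le x (-y)).trans ?_
  rw [AbsoluteValue.map_neg]

/-- the Gauss norm of a product of linear factors -/
lemma coeff_prod_le (hN : IsVal p N) {ρ : ℝ} (hρ : 0 ≤ ρ) (s : Multiset L) (r : ℕ) :
    N ((s.map fun θ => X - C θ).prod.coeff r) * ρ ^ r ≤ (s.map fun θ => max (N θ) ρ).prod := by
  induction s using Multiset.induction_on generalizing r with
  | empty =>
    rw [Multiset.map_zero, Multiset.prod_zero, Multiset.map_zero, Multiset.prod_zero, coeff_one]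
    split_ifs with h
    · subst h
      simp
    · simp
  | cons θ s ih =>
    rw [Multiset.map_cons, Multiset.prod_cons, Multiset.map_cons, Multiset.prod_cons, sub_mul]
    have hpos : (0 : ℝ) ≤ (s.map fun θ => max (N θ) ρ).prod :=
      Multiset.prod_nonneg fun x hx => by
        obtain ⟨y, -, rfl⟩ := Multiset.mem_map.1 hx
        exact le_max_of_le_right hρ
    set P := (s.map fun θ => X - C θ).prod with hP
    set B := (s.map fun θ => max (N θ) ρ).prod with hB
    have h1 : N ((C θ * P).coeff r) * ρ ^ r ≤ max (N θ) ρ * B := by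
      rw [coeff_C_mul, map_mul, mul_assoc]
      exact mul_le_mul (le_max_left _ _) (ih r) (mul_nonneg (N.nonneg _) (pow_nonneg hρ _))
        (le_max_of_le_right hρ)
    have h2 : N ((X * P).coeff r) * ρ ^ r ≤ max (N θ) ρ * B := by
      cases r with
      | zero =>
        rw [coeff_X_mul_zero, map_zero, zero_mul]
        exact mul_nonneg (le_max_of_le_right hρ) hpos
      | succ r =>
        rw [coeff_X_mul, pow_succ', mul_left_comm]
        exact mul_le_mul (le_max_right _ _) (ih r) (mul_nonneg (N.nonneg _) (pow_nonneg hρ _))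
          (le_max_of_le_right hρ)
    rw [coeff_sub]
    have h3 := sub_le hN ((X * P).coeff r) ((C θ * P).coeff r)
    have h4 : N ((X * P).coeff r - (C θ * P).coeff r) * ρ ^ r ≤
        max (N ((X * P).coeff r)) (N ((C θ * P).coeff r)) * ρ ^ r :=
      mul_le_mul_of_nonneg_right h3 (pow_nonneg hρ _)
    refine h4.trans ?_
    rcases max_cases (N ((X * P).coeff r)) (N ((C θ * P).coeff r)) with ⟨e, -⟩ | ⟨e, -⟩
    · rw [e]; exact h2
    · rw [e]; exact h1

/-- the absolute value of an integer -/
lemma val_int (hN : IsVal p N) (hp : p.Prime) (a : ℤ) (ha : a ≠ 0) :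
    (p : ℝ)⁻¹ ^ (padicValInt p a) ≤ N (a : L) := by
  haveI : Fact p.Prime := ⟨hp⟩
  obtain ⟨b, hb⟩ : (p : ℤ) ^ padicValInt p a ∣ a := padicValInt_dvd a
  have hnd : ¬ (p : ℤ) ∣ b := by
    rintro ⟨c, hc⟩
    have h1 : (p : ℤ) ^ (padicValInt p a + 1) ∣ a := ⟨c, hb.trans (by rw [hc, pow_succ]; ring)⟩
    have h2 := (padicValInt_dvd_iff (p := p) (padicValInt p a + 1) a).1 h1
    rcases h2 with h2 | h2
    · exact ha h2
    · omega
  have hcop : IsCoprime b (p : ℤ) :=
    ((Nat.prime_iff_prime_int.1 hp).irreducible.coprime_iff_not_dvd.2 hnd).symm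
  obtain ⟨u, v, huv⟩ := hcop
  have hb1 : 1 ≤ N (b : L) := by
    have h1 : (1 : L) = (u : L) * b + v * p := by
      have := congrArg (Int.cast : ℤ → L) huv
      push_cast at this
      exact this.symm
    have hZ : ∀ x : ℤ, N (x : L) ≤ 1 := fun x => hN.int_le _ (by
      have := isIntegral_algebraMap (R := ℤ) (A := L) (x := x)
      rwa [eq_intCast] at this)
    have hp1 : N (p : L) < 1 := by
      rw [hN.p_eq]
      exact inv_lt_one_of_one_lt₀ (by exact_mod_cast hp.one_lt)
    by_contra hcon
    rw [not_le] at hcon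
    have h2 : N (1 : L) ≤ max (N ((u : L) * b)) (N ((v : L) * p)) := by
      rw [h1]
      exact hN.add_le _ _
    rw [map_one, map_mul, map_mul] at h2
    have h3 : N (u : L) * N (b : L) < 1 := by
      calc N (u : L) * N (b : L) ≤ 1 * N (b : L) := mul_le_mul_of_nonneg_right (hZ u) (N.nonneg _)
        _ < 1 := by rw [one_mul]; exact hcon
    have h4 : N (v : L) * N (p : L) < 1 := by
      calc N (v : L) * N (p : L) ≤ 1 * N (p : L) := mul_le_mul_of_nonneg_right (hZ v) (N.nonneg _)
        _ < 1 := by rw [one_mul]; exact hp1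
    exact absurd h2 (not_le.2 (max_lt h3 h4))
  have h1 : N (a : L) = (p : ℝ)⁻¹ ^ padicValInt p a * N (b : L) := by
    conv_lhs => rw [hb]
    push_cast
    rw [map_mul, map_pow, hN.p_eq]
  rw [h1]
  exact le_mul_of_one_le_right (by positivity) hb1

end

end Pool.Agent.W5h58.GT
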